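import Pool.Agent.Lib.MP_a7239a_co.TP.Lift

/-!
# A coset of index `p` that is more than half full
-/

open scoped Pointwise
open Finset

set_option linter.unusedSectionVars false

namespace Pool.Agent.Lib.MPa7239a.TP

open Pool.Agent.Lib.MPa7239a.Q3

universe u v

section cd

variable {D : Type v} [AddCommGroup D] [Fintype D] [DecidableEq D] {p : ℕ}

/-- Cauchy-Davenport in a group of prime order -/
theorem cd2 (hpp : p.Prime) (hD : Fintype.card D = p) {X Y : Finset D} (hX : X.Nonempty)
    (hY : Y.Nonempty) : min p (#X + #Y - 1) ≤ #(X + Y) := by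
  have h1 := kneser hX hY
  set K := st (X + Y) with hK
  have hd : #(hs K) ∣ p := by
    have h5 : #(hs K) ∣ #(univ : Finset D) := dvd_card_of_per (fun a _ g _ => mem_univ _)
    rwa [card_univ, hD] at h5
  have h2 := card_le_card (subset_cl K X)
  have h3 := card_le_card (subset_cl K Y)
  rcases (Nat.dvd_prime hpp).1 hd with h | h
  · omega
  · have h4 : #(hs K) ∣ #(X + Y) := dvd_card_of_per (per_st _)
    have h5 : 0 < #(X + Y) := (hX.add hY).card_pos
    have h6 := Nat.le_of_dvd h5 h4
    omega

theorem cd_list (hpp : p.Prime) (hD : Fintype.card D = p) : ∀ L : List (Finset D),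
    (∀ X ∈ L, X.Nonempty) → L.sum.Nonempty ∧
      min p ((L.map (fun X => #X - 1)).sum + 1) ≤ #L.sum := by
  intro L
  induction L with
  | nil =>
    intro _
    have h0 : (List.sum [] : Finset D) = {0} := rfl
    rw [h0]
    refine ⟨singleton_nonempty _, ?_⟩
    simp
  | cons X L ih =>
    intro h
    obtain ⟨h2, h3⟩ := ih (fun Y hY => h Y (List.mem_cons_of_mem _ hY))
    have h4 := h X List.mem_cons_self
    rw [List.sum_cons]
    refine ⟨h4.add h2, ?_⟩
    have h7 := cd2 hpp hD h4 h2
    rw [List.map_cons, List.sum_cons]
    have h8 := h4.card_pos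
    have h9 := h2.card_pos
    omega

end cd

section indexp

variable {G : Type u} [AddCommGroup G] [Fintype G] [DecidableEq G]
variable {D : Type v} [AddCommGroup D] [Fintype D] [DecidableEq D]
variable {p : ℕ}

theorem list_range_sum (f : ℕ → ℕ) (n : ℕ) :
    ((List.range n).map f).sum = ∑ i ∈ range n, f i := by
  induction n with
  | zero => simp
  | succ n ih =>
    rw [List.range_succ, List.map_append, List.sum_append, ih, sum_range_succ]
    simp

/-- the threshold sets `{a ≥ 1}, …, {a ≥ n}` -/
def thrs (a : D → ℕ) (n : ℕ) : List (Finset D) := (List.range n).map (fun i => thr a (i + 1))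

theorem length_thrs (a : D → ℕ) (n : ℕ) : (thrs a n).length = n := by
  rw [thrs, List.length_map, List.length_range]

theorem mem_thrs {a : D → ℕ} {n : ℕ} {X : Finset D} (h : X ∈ thrs a n) :
    ∃ i < n, X = thr a (i + 1) := by
  rw [thrs, List.mem_map] at h
  obtain ⟨i, hi, rfl⟩ := h
  exact ⟨i, List.mem_range.1 hi, rfl⟩

theorem sum_thrs (a : D → ℕ) (n : ℕ) (f : Finset D → ℕ) :
    ((thrs a n).map f).sum = ∑ i ∈ range n, f (thr a (i + 1)) := by
  rw [thrs, List.map_map, ← list_range_sum]
  rfl

/-- the number of times `q` occurs in the first `n` threshold sets -/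
theorem sum_cap (a : D → ℕ) (n : ℕ) (q : D) :
    ((thrs a n).map (fun X => if q ∈ X then 1 else 0)).sum = min (a q) n := by
  rw [sum_thrs]
  simp_rw [mem_thr]
  rw [← card_filter]
  have : (range n).filter (fun i => i + 1 ≤ a q) = range (min (a q) n) := by
    ext i
    rw [mem_filter, mem_range, mem_range]
    omega
  rw [this, card_range]

/-- if a fibre of a map to a group of order `p` is more than half full, then every element is a
sum of `p` distinct elements -/
theorem index_p (hpp : p.Prime) (hp : 5 ≤ p) {φ : G →+ D} (hD : Fintype.card D = p) {κ : ℕ}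
    (hφ : ∀ v, #(fib φ v) = κ) (hκ : ∀ q, q.Prime → q ∣ κ → p ≤ q) (hκp : κ ≠ p)
    (hκ2 : κ ≠ p + 2) (hκ0 : p ≤ κ) {A : Finset G} (hA : #A = κ + p) {u : D}
    (hu : κ + p ≤ 2 * #(part φ A u)) (x : G) : DS A p x := by
  classical
  have hodd : p % 2 = 1 := hpp.eq_two_or_odd.resolve_left (by omega)
  set a : D → ℕ := fun q => #(part φ A q) with ha
  have hau : κ + p ≤ 2 * a u := hu
  have hsum : ∑ q, a q = κ + p := by
    rw [← hA]
    symm
    exact card_eq_sum_card_fiberwise (fun g _ => mem_coe.2 (mem_univ _))
  have hpD : ∀ d : D, p • d = 0 := by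
    intro d
    rw [← hD, ← Nat.card_eq_fintype_card]
    exact card_nsmul_eq_zero'
  -- the sum over one class
  have hone : ∀ c : D → ℕ, (∑ q, c q = p) → (∑ q, c q • q = φ x) → 2 ≤ c u →
      (∀ q, q ≠ u → c q ≤ a q) → DS A p x := by
    intro c hc hcs hcu hca
    have hcup : c u ≤ p := by
      rw [← hc]
      exact single_le_sum (f := c) (fun q _ => Nat.zero_le _) (mem_univ u)
    rw [← hc]
    apply lift {u}
    · intro q hq
      rw [mem_singleton] at hq
      exact hca q hq
    · exact hcs
    · intro z hz
      rw [sum_singleton] at hz ⊢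
      have h1 : A.filter (fun g => φ g ∈ ({u} : Finset D)) = part φ A u := by
        ext g
        rw [mem_filter, mem_singleton, mem_part]
      rw [h1]
      rcases Nat.lt_or_ge (c u) p with h2 | h2
      · exact fibre_mid hp hodd (part_subset u) (hφ u) hκ hau hcu h2 hz.symm
      · have h3 : c u = p := by omega
        rw [h3]
        exact fibre_top hpp hp (part_subset u) (hφ u) hκ hau hκp hκ2 (by rw [hz, h3])
  by_cases hbig : p - 1 ≤ ∑ q ∈ univ.erase u, min (a q) (p - 2)
  · -- many elements outside
    have hmem : ∀ X ∈ thrs a (p - 2), u ∈ X := by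
      intro X hX
      obtain ⟨i, hi, rfl⟩ := mem_thrs hX
      rw [mem_thr]
      omega
    obtain ⟨-, h1⟩ := cd_list hpp hD (thrs a (p - 2)) (fun X hX => ⟨u, hmem X hX⟩)
    have h2 : ((thrs a (p - 2)).map (fun X => #X - 1)).sum =
        ∑ q ∈ univ.erase u, min (a q) (p - 2) := by
      rw [sum_thrs]
      have h3 : ∀ i ∈ range (p - 2), #(thr a (i + 1)) - 1 =
          ∑ q ∈ univ.erase u, if i + 1 ≤ a q then 1 else 0 := by
        intro i hi
        rw [mem_range] at hi
        rw [← card_filter, ← card_erase_of_mem (hmem _ (by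
          rw [thrs, List.mem_map]
          exact ⟨i, List.mem_range.2 hi, rfl⟩))]
        congr 1
        ext q
        rw [mem_erase, mem_thr, mem_filter, mem_erase]
        simp
      rw [sum_congr rfl h3, sum_comm]
      refine sum_congr rfl fun q _ => ?_
      rw [← card_filter]
      have : (range (p - 2)).filter (fun i => i + 1 ≤ a q) = range (min (a q) (p - 2)) := by
        ext i
        rw [mem_filter, mem_range, mem_range]
        omega
      rw [this, card_range]
    rw [h2] at h1
    have h3 : (thrs a (p - 2)).sum = univ := by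
      rw [← card_eq_iff_eq_univ]
      apply le_antisymm (card_le_univ _)
      rw [hD]
      omega
    obtain ⟨c, hc1, hc2, hc3⟩ := cap_list (thrs a (p - 2)) (φ x - u - u) (by
      rw [h3]
      exact mem_univ _)
    rw [length_thrs] at hc1
    apply hone (fun q => c q + if q = u then 2 else 0)
    · rw [sum_add_distrib, hc1, sum_ite_eq' univ u, if_pos (mem_univ _)]
      omega
    · simp_rw [add_nsmul]
      rw [sum_add_distrib, hc2]
      simp only [ite_smul, zero_smul]
      rw [sum_ite_eq' univ u, if_pos (mem_univ _), two_nsmul]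
      abel
    · show 2 ≤ c u + (if u = u then 2 else 0)
      rw [if_pos rfl]
      omega
    · intro q hq
      show c q + (if q = u then 2 else 0) ≤ a q
      rw [if_neg hq]
      have := hc3 q
      rw [sum_cap] at this
      omega
  · -- all other elements are in one class
    push Not at hbig
    have hsu : a u + ∑ q ∈ univ.erase u, a q = κ + p := by
      rw [← hsum]
      exact add_sum_erase _ _ (mem_univ u)
    have hauκ : a u ≤ κ := by
      rw [← hφ u]
      exact card_le_card (part_subset u)
    have hex : ∃ e, e ≠ u ∧ p - 1 ≤ a e := by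
      by_contra hcon
      push Not at hcon
      have h1 : ∑ q ∈ univ.erase u, min (a q) (p - 2) = ∑ q ∈ univ.erase u, a q := by
        refine sum_congr rfl fun q hq => ?_
        have := hcon q (mem_erase.1 hq).1
        omega
      omega
    obtain ⟨e, heu, hae⟩ := hex
    have he : e ∈ univ.erase u := mem_erase.2 ⟨heu, mem_univ _⟩
    have h1 : min (a e) (p - 2) + ∑ q ∈ (univ.erase u).erase e, min (a q) (p - 2) =
        ∑ q ∈ univ.erase u, min (a q) (p - 2) :=
      add_sum_erase _ (fun q => min (a q) (p - 2)) he
    have h2 : ∀ q ∈ (univ.erase u).erase e, a q = 0 := by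
      intro q hq
      have h3 : min (a q) (p - 2) ≤ ∑ q ∈ (univ.erase u).erase e, min (a q) (p - 2) :=
        single_le_sum (f := fun q => min (a q) (p - 2)) (fun q _ => Nat.zero_le _) hq
      omega
    have h3 : a e + ∑ q ∈ (univ.erase u).erase e, a q = ∑ q ∈ univ.erase u, a q :=
      add_sum_erase _ _ he
    rw [sum_eq_zero h2, add_zero] at h3
    have : Fact p.Prime := ⟨hpp⟩
    obtain ⟨n, hn⟩ := mem_multiples_of_prime_card (G := D) (p := p)
      (by rw [Nat.card_eq_fintype_card, hD]) (g := e - u) (g' := φ x) (sub_ne_zero.2 heu)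
    simp only at hn
    set i := n % p with hi
    have hip : i < p := Nat.mod_lt _ (by omega)
    have hix : i • (e - u) = φ x := by
      rw [← hn]
      conv_rhs => rw [← Nat.div_add_mod n p]
      rw [add_nsmul, mul_comm, mul_nsmul, hpD, zero_add]
    rcases Nat.eq_zero_or_pos i with hi0 | hi0
    · -- only the class `u`
      apply hone (fun q => if q = u then p else 0)
      · rw [sum_ite_eq' univ u, if_pos (mem_univ _)]
      · simp only [ite_smul, zero_smul]
        rw [sum_ite_eq' univ u, if_pos (mem_univ _), hpD, ← hix, hi0, zero_nsmul]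
      · show 2 ≤ if u = u then p else 0
        rw [if_pos rfl]
        omega
      · intro q hq
        show (if q = u then p else 0) ≤ a q
        rw [if_neg hq]
        exact Nat.zero_le _
    · -- both classes
      have h4 := pair_DS (π := φ) (Ne.symm heu) (B₁ := part φ A u) (B₂ := part φ A e) (h := κ)
        (c₁ := p - i) (c₂ := i) (part_subset u) (part_subset e) (hφ e) (by omega) (by omega)
        (by
          have : κ + p ≤ 2 * #(part φ A u) := hau
          omega) (by
          have : p - 1 ≤ #(part φ A e) := hae
          omega) (by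
          have h5 : #(part φ A u) = a u := rfl
          have h6 : #(part φ A e) = a e := rfl
          omega) (z := x) (by
          rw [← hix]
          have h5 : (p - i) • u = p • u - i • u := by
            rw [eq_sub_iff_add_eq, ← add_nsmul, Nat.sub_add_cancel hip.le]
          rw [h5, hpD, nsmul_sub]
          abel)
      rw [Nat.sub_add_cancel hip.le] at h4
      obtain ⟨T, hT, hTc, hTs⟩ := h4
      refine ⟨T, hT.trans ?_, hTc, hTs⟩
      intro g hg
      rw [mem_union, mem_part, mem_part] at hg
      rcases hg with hg | hg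
      · exact hg.1
      · exact hg.1

end indexp

end Pool.Agent.Lib.MPa7239a.TP
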