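import Pool.Agent.Lib.MP_a7239a_co.TP.LemA
import Pool.Agent.Lib.MP_a7239a_co.TP.IndexP

/-!
# Counting

`n : ZMod p → ℕ` with `n 0 = 0`, sum `p * p * g + p` (`g ≥ p`) and no value above half of the sum. If
the inequalities coming from types hold, then this is impossible.
-/

open scoped Pointwise
open Finset

set_option linter.unusedSectionVars false

namespace Pool.Agent.Lib.MPa7239a.TP

open Pool.Agent.Lib.MPa7239a.Q3

/-- the inequalities coming from types -/
def MT (p : ℕ) [NeZero p] (g : ℕ) (n : ZMod p → ℕ) : Prop :=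
  ∀ (c : ZMod p → ℕ) (J : Finset (ZMod p)), (∀ v ∈ J, 2 ≤ c v) → (∀ v, c v ≤ n v) →
    ∑ v, c v = p → ∑ v, c v • v = 0 →
    (∑ v ∈ J, n v + 4 ≤
      2 * (∑ v ∈ univ.filter (fun v => c v = 0), n v) + ∑ v ∈ J, c v) ∨
    (∑ v ∈ J, (n v + 2) + p ≤
      (∑ v ∈ univ.filter (fun v => c v = 0), n v) + (p - 2) * g + ∑ v ∈ J, c v)

section comb

variable {p : ℕ} [Fact p.Prime] {g : ℕ} {n : ZMod p → ℕ}

theorem exists_fun {X : Finset (ZMod p)} : ∀ (k : ℕ) (y : ZMod p),
    y ∈ (List.replicate k X).sum →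
      ∃ c : ZMod p → ℕ, (∀ v, v ∉ X → c v = 0) ∧ ∑ v, c v = k ∧ ∑ v, c v • v = y := by
  intro k
  induction k with
  | zero =>
    intro y hy
    rw [List.replicate_zero, List.sum_nil, Finset.mem_zero] at hy
    exact ⟨fun _ => 0, fun _ _ => rfl, by simp, by simp [hy]⟩
  | succ k ih =>
    intro y hy
    rw [List.replicate_succ, List.sum_cons, Finset.mem_add] at hy
    obtain ⟨s, hs', t, ht, rfl⟩ := hy
    obtain ⟨c, hc0, hc1, hc2⟩ := ih t ht
    refine ⟨fun v => c v + if v = s then 1 else 0, ?_, ?_, ?_⟩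
    · intro v hv
      have hvs : v ≠ s := by
        rintro rfl
        exact hv hs'
      show c v + (if v = s then 1 else 0) = 0
      rw [hc0 v hv, if_neg hvs]
    · rw [sum_add_distrib, hc1, sum_ite_eq' univ s, if_pos (mem_univ _)]
    · simp only [add_nsmul]
      rw [sum_add_distrib, hc2, add_comm s t]
      congr 1
      simp

theorem arith_mid {d b lam ne ce L : ℕ} (hd : 2 ≤ d) (hb : 3 ≤ b) (hp : d + b + 1 = p)
    (hg : p ≤ g) (hlam : lam ≤ d * (p - 1)) (hL : L ≤ lam) (hce : ce ≤ p)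
    (hT : p * p * g + p ≤ ne * b + lam)
    (h : ne + 4 ≤ 2 * L + ce ∨ ne + 2 + p ≤ L + (p - 2) * g + ce) : False := by
  obtain ⟨r, rfl⟩ : ∃ r, g = p + r := ⟨g - p, by omega⟩
  have hp1 : p - 1 = d + b := by omega
  have hp2 : p - 2 = d + b - 1 := by omega
  rw [hp1] at hlam
  rw [hp2] at h
  obtain ⟨s, rfl⟩ : ∃ s, d = s + 2 := ⟨d - 2, by omega⟩
  obtain ⟨t, rfl⟩ : ∃ t, b = t + 3 := ⟨b - 3, by omega⟩
  rw [show s + 2 + (t + 3) - 1 = s + t + 4 by omega] at h
  have hp' : p = s + t + 6 := by omega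
  subst hp'
  rcases h with h | h
  · have h1 : ne * (t + 3) ≤ (2 * lam + s + t + 2) * (t + 3) := Nat.mul_le_mul_right _ (by omega)
    have h2 : (2 * t + 7) * lam ≤ (2 * t + 7) * ((s + 2) * (s + 2 + (t + 3))) :=
      Nat.mul_le_mul_left _ hlam
    have h3 : (s + t + 6) * (s + t + 6) * (s + t + 6) ≤
        (s + t + 6) * (s + t + 6) * (s + t + 6 + r) := Nat.mul_le_mul_left _ (by omega)
    have h4 : (s + t + 6) * (s + t + 6) * (s + t + 6) =
        (2 * t + 7) * ((s + 2) * (s + 2 + (t + 3))) + (s + t + 2) * (t + 3) +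
        (s * s * s + s * s * t + s * t * t + t * t * t + 11 * (s * s) + 14 * (s * t) +
          13 * (t * t) + 56 * s + 69 * t + 140) := by ring
    have h5 : (2 * lam + s + t + 2) * (t + 3) + lam = (2 * t + 7) * lam + (s + t + 2) * (t + 3) := by
      ring
    omega
  · have h1 : ne * (t + 3) + 2 * (t + 3) ≤ (lam + (s + t + 4) * (s + t + 6 + r)) * (t + 3) := by
      have : (ne + 2) * (t + 3) ≤ (lam + (s + t + 4) * (s + t + 6 + r)) * (t + 3) :=
        Nat.mul_le_mul_right _ (by omega)
      nlinarith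
    nlinarith [Nat.mul_le_mul_right (t + 4) hlam]

/-- between three and `p - 3` rich classes -/
theorem comb_mid (hg : p ≤ g) (hMT : MT p g n) {X : Finset (ZMod p)} (hX : ∀ v ∈ X, p ≤ n v)
    (hb : 3 ≤ #X) (hb' : #X + 3 ≤ p) (hT : ∑ v, n v = p * p * g + p)
    (hlam : ∑ v ∈ univ.filter (fun v => v ∉ X), n v ≤ (p - 1 - #X) * (p - 1)) : False := by
  classical
  have hpp : p.Prime := Fact.out
  obtain ⟨e, heX, he⟩ := exists_max_image X n (card_pos.1 (by omega))
  -- Cauchy-Davenport
  have hcd := (cd_list hpp (ZMod.card p) (List.replicate (p - #X - 1) X) (by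
    intro Y hY
    rw [List.eq_of_mem_replicate hY]
    exact card_pos.1 (by omega))).2
  rw [List.map_replicate, List.sum_replicate, smul_eq_mul] at hcd
  have h1 : p ≤ (p - #X - 1) * (#X - 1) + 1 := by
    obtain ⟨d, hd⟩ : ∃ d, p = d + 3 + #X := ⟨p - 3 - #X, by omega⟩
    obtain ⟨b, hb2⟩ : ∃ b, #X = b + 3 := ⟨#X - 3, by omega⟩
    rw [show p - #X - 1 = d + 2 by omega, show #X - 1 = b + 2 by omega, hd, hb2]
    have : (d + 2) * (b + 2) = d * b + 2 * d + 2 * b + 4 := by ring
    have h2 : 0 < d ∨ d = 0 := by omega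
    have h3 : 0 ≤ d * b := Nat.zero_le _
    by_contra hcon
    push Not at hcon
    rw [this] at hcon
    -- d * b + d + b < 1 + ...
    have h4 : d = 0 ∧ b = 0 := by
      constructor
      · omega
      · omega
    obtain ⟨rfl, rfl⟩ := h4
    -- p = 6 is not prime
    have h6 : p = 6 := by omega
    rw [h6] at hpp
    exact absurd hpp (by decide)
  rw [min_eq_left h1] at hcd
  have huniv : (List.replicate (p - #X - 1) X).sum = univ := by
    apply (card_eq_iff_eq_univ _).1
    apply le_antisymm (card_le_univ _)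
    rw [ZMod.card]
    exact hcd
  obtain ⟨c₀, hc0, hc1, hc2⟩ := exists_fun (X := X) (p - #X - 1) (-(∑ v ∈ X, v + e)) (by
    rw [huniv]
    exact mem_univ _)
  set c : ZMod p → ℕ := fun v => c₀ v + (if v ∈ X then 1 else 0) + (if v = e then 1 else 0) with hc
  have hcsum : ∑ v, c v = p := by
    rw [hc]
    simp only [sum_add_distrib]
    rw [hc1, sum_ite_eq' univ e, if_pos (mem_univ _), ← sum_filter, filter_mem_eq_inter,
      univ_inter, sum_const, smul_eq_mul, mul_one]
    omega
  have hcs : ∑ v, c v • v = 0 := by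
    have h2 : ∀ v, c v • v = c₀ v • v + (if v ∈ X then v else 0) + (if v = e then v else 0) := by
      intro v
      rw [hc]
      simp only [add_nsmul, ite_smul, one_nsmul, zero_nsmul]
    simp_rw [h2]
    rw [sum_add_distrib, sum_add_distrib, hc2, ← sum_filter, filter_mem_eq_inter, univ_inter,
      sum_ite_eq' univ e, if_pos (mem_univ _)]
    abel
  have hcX : ∀ v, v ∉ X → c v = 0 := by
    intro v hv
    have hve : v ≠ e := by
      rintro rfl
      exact hv heX
    rw [hc]
    show c₀ v + (if v ∈ X then 1 else 0) + (if v = e then 1 else 0) = 0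
    rw [hc0 v hv, if_neg hv, if_neg hve]
  have hcp : ∀ v, c v ≤ p := fun v => by
    rw [← hcsum]
    exact single_le_sum (f := c) (fun _ _ => Nat.zero_le _) (mem_univ v)
  have hce : 2 ≤ c e := by
    rw [hc]
    show 2 ≤ c₀ e + (if e ∈ X then 1 else 0) + (if e = e then 1 else 0)
    rw [if_pos heX, if_pos rfl]
    omega
  have hmt := hMT c {e} (by
    intro v hv
    rw [mem_singleton] at hv
    rw [hv]
    exact hce) (by
    intro v
    by_cases hv : v ∈ X
    · exact (hcp v).trans (hX v hv)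
    · rw [hcX v hv]
      exact Nat.zero_le _) hcsum hcs
  rw [sum_singleton, sum_singleton, sum_singleton] at hmt
  have hL : ∑ v ∈ univ.filter (fun v => c v = 0), n v ≤ ∑ v ∈ univ.filter (fun v => v ∉ X), n v := by
    apply sum_le_sum_of_subset
    intro v hv
    rw [mem_filter] at hv ⊢
    refine ⟨mem_univ _, fun hvX => ?_⟩
    have h3 : c v = 0 := hv.2
    rw [hc] at h3
    have h4 : c₀ v + (if v ∈ X then 1 else 0) + (if v = e then 1 else 0) = 0 := h3
    rw [if_pos hvX] at h4
    omega
  have hsplit := sum_filter_add_sum_filter_not univ (fun v => v ∈ X) n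
  rw [filter_mem_eq_inter, univ_inter, hT] at hsplit
  have hle : ∑ v ∈ X, n v ≤ n e * #X := by
    have := sum_le_card_nsmul X n (n e) he
    rw [smul_eq_mul, mul_comm] at this
    exact this
  exact arith_mid (d := p - 1 - #X) (b := #X) (p := p) (g := g) (ne := n e) (ce := c e)
    (by omega) hb (by omega) hg hlam hL (hcp e) (by omega) hmt

theorem arith_two {ne nf lam ce L : ℕ} (hp : 5 ≤ p) (hg : p ≤ g)
    (hlam : lam ≤ (p - 3) * (p - 1)) (hL : L ≤ lam) (hce : ce ≤ p)
    (hT : ne + nf + lam = p * p * g + p) (hf : 2 * nf + 2 ≤ p * p * g + p)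
    (h : ne + 4 ≤ 2 * L + ce ∨ ne + 2 + p ≤ L + (p - 2) * g + ce) : False := by
  obtain ⟨r, rfl⟩ : ∃ r, g = p + r := ⟨g - p, by omega⟩
  obtain ⟨s, hs'⟩ : ∃ s, p = s + 5 := ⟨p - 5, by omega⟩
  rw [hs'] at hlam hT hf h hce
  rw [show s + 5 - 3 = s + 2 by omega, show s + 5 - 1 = s + 4 by omega] at hlam
  rw [show s + 5 - 2 = s + 3 by omega] at h
  have e1 : (s + 5) * (s + 5) * (s + 5 + r) =
      s * s * s + 15 * (s * s) + 75 * s + 125 + (s + 5) * (s + 5) * r := by ring
  have e2 : (s + 2) * (s + 4) = s * s + 6 * s + 8 := by ring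
  have e3 : (s + 3) * (s + 5 + r) = s * s + 8 * s + 15 + (s + 3) * r := by ring
  have e4 : (s + 5) * (s + 5) * r = (s + 3) * r * 2 + (s * s + 8 * s + 19) * r := by ring
  rw [e1] at hT hf
  rw [e2] at hlam
  rw [e3] at h
  rcases h with h | h
  · omega
  · omega

/-- two rich classes -/
theorem comb_two (hp : 5 ≤ p) (hg : p ≤ g) (hMT : MT p g n) {f₁ f₂ : ZMod p} (hf : f₁ ≠ f₂)
    (h1 : p ≤ n f₁) (h2 : p ≤ n f₂) (hT : ∑ v, n v = p * p * g + p)
    (hmax : ∀ v, 2 * n v + 2 ≤ p * p * g + p)
    (hlam : ∑ v ∈ univ.filter (fun v => v ∉ ({f₁, f₂} : Finset (ZMod p))), n v ≤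
      (p - 3) * (p - 1)) : False := by
  classical
  have hsplit := sum_filter_add_sum_filter_not univ (fun v => v ∈ ({f₁, f₂} : Finset (ZMod p))) n
  rw [filter_mem_eq_inter, univ_inter, hT, sum_pair hf] at hsplit
  have hm1 := hmax f₁
  have hm2 := hmax f₂
  -- a third class
  obtain ⟨v', hv', hv'n⟩ : ∃ v' ∈ univ.filter (fun v => v ∉ ({f₁, f₂} : Finset (ZMod p))),
      n v' ≠ 0 := by
    by_contra hcon
    push Not at hcon
    rw [sum_eq_zero hcon] at hsplit
    omega
  rw [mem_filter, mem_insert, mem_singleton, not_or] at hv'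
  obtain ⟨-, hv1, hv2⟩ := hv'
  have hd : f₁ - f₂ ≠ 0 := sub_ne_zero.2 hf
  set q : ZMod p := (f₂ - v') / (f₁ - f₂) with hq
  have hqeq : q * (f₁ - f₂) = f₂ - v' := div_mul_cancel₀ _ hd
  have hq0 : q ≠ 0 := by
    intro h
    rw [h, zero_mul] at hqeq
    exact hv2 (sub_eq_zero.1 hqeq.symm).symm
  have hq1 : q ≠ -1 := by
    intro h
    rw [h] at hqeq
    apply hv1
    have : v' = f₂ - (-1 : ZMod p) * (f₁ - f₂) := by
      rw [hqeq]
      ring
    rw [this]
    ring
  set c₁ := q.val with hc₁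
  have hc1lt : c₁ < p := ZMod.val_lt q
  have hc1cast : (c₁ : ZMod p) = q := ZMod.natCast_zmod_val q
  have hc1pos : 1 ≤ c₁ := by
    by_contra hcon
    apply hq0
    rw [← hc1cast]
    have : c₁ = 0 := by omega
    rw [this]
    simp
  have hc1p : c₁ + 2 ≤ p := by
    by_contra hcon
    apply hq1
    have : c₁ = p - 1 := by omega
    rw [← hc1cast, this, Nat.cast_sub (by omega)]
    simp
  set c₂ := p - 1 - c₁ with hc₂
  have hc2cast : (c₂ : ZMod p) = -1 - q := by
    rw [hc₂, Nat.cast_sub (by omega), Nat.cast_sub (by omega), hc1cast]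
    simp
  set c : ZMod p → ℕ := fun v => (if v = f₁ then c₁ else 0) + (if v = f₂ then c₂ else 0) +
    (if v = v' then 1 else 0) with hc
  have hcsum : ∑ v, c v = p := by
    rw [hc]
    simp only [sum_add_distrib, sum_ite_eq', mem_univ, if_true]
    omega
  have hcs : ∑ v, c v • v = 0 := by
    have h3 : ∀ v, c v • v = (if v = f₁ then c₁ • v else 0) + (if v = f₂ then c₂ • v else 0) +
        (if v = v' then v else 0) := by
      intro v
      rw [hc]
      simp only [add_nsmul, ite_smul, one_nsmul, zero_nsmul]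
    simp_rw [h3]
    simp only [sum_add_distrib, sum_ite_eq', mem_univ, if_true]
    rw [nsmul_eq_mul, nsmul_eq_mul, hc1cast, hc2cast]
    linear_combination hqeq
  have hc1v : c f₁ = c₁ := by
    rw [hc]
    show (if f₁ = f₁ then c₁ else 0) + (if f₁ = f₂ then c₂ else 0) + (if f₁ = v' then 1 else 0) = c₁
    rw [if_pos rfl, if_neg hf, if_neg (Ne.symm hv1)]
    omega
  have hc2v : c f₂ = c₂ := by
    rw [hc]
    show (if f₂ = f₁ then c₁ else 0) + (if f₂ = f₂ then c₂ else 0) + (if f₂ = v' then 1 else 0) = c₂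
    rw [if_pos rfl, if_neg (Ne.symm hf), if_neg (Ne.symm hv2)]
    omega
  have hcle : ∀ v, c v ≤ n v := by
    intro v
    by_cases hvf1 : v = f₁
    · rw [hvf1, hc1v]
      omega
    by_cases hvf2 : v = f₂
    · rw [hvf2, hc2v]
      omega
    show (if v = f₁ then c₁ else 0) + (if v = f₂ then c₂ else 0) + (if v = v' then 1 else 0) ≤ n v
    rw [if_neg hvf1, if_neg hvf2]
    by_cases hvv : v = v'
    · rw [if_pos hvv, hvv]
      omega
    · rw [if_neg hvv]
      omega
  have hL : ∑ v ∈ univ.filter (fun v => c v = 0), n v ≤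
      ∑ v ∈ univ.filter (fun v => v ∉ ({f₁, f₂} : Finset (ZMod p))), n v := by
    apply sum_le_sum_of_subset
    intro v hv
    rw [mem_filter] at hv ⊢
    refine ⟨mem_univ _, fun hvX => ?_⟩
    rw [mem_insert, mem_singleton] at hvX
    rcases hvX with rfl | rfl
    · have := hv.2
      omega
    · have := hv.2
      omega
  rcases Nat.lt_or_ge 1 c₁ with hbig | hsmall
  · have hmt := hMT c {f₁} (by
      intro v hv
      rw [mem_singleton] at hv
      rw [hv, hc1v]
      exact hbig) hcle hcsum hcs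
    rw [sum_singleton, sum_singleton, sum_singleton, hc1v] at hmt
    exact arith_two hp hg hlam hL (by omega) hsplit hm2 hmt
  · have hmt := hMT c {f₂} (by
      intro v hv
      rw [mem_singleton] at hv
      rw [hv, hc2v]
      omega) hcle hcsum hcs
    rw [sum_singleton, sum_singleton, sum_singleton, hc2v] at hmt
    exact arith_two hp hg hlam hL (by omega) (by rw [add_comm (n f₂)]; exact hsplit) hm1 hmt

theorem sum_all (hp : 5 ≤ p) : ∑ v : ZMod p, v = 0 := by
  have hpp : p.Prime := Fact.out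
  have h1 : ∑ v : ZMod p, v = ∑ v : ZMod p, (-v) :=
    (Fintype.sum_equiv (Equiv.neg (ZMod p)) (fun v => -v) (fun v => v) (fun v => rfl)).symm
  rw [sum_neg_distrib] at h1
  have h2 : (2 : ZMod p) * ∑ v : ZMod p, v = 0 := by
    linear_combination h1
  rcases mul_eq_zero.1 h2 with h | h
  · exfalso
    have h3 : ((2 : ℕ) : ZMod p) = 0 := by
      exact_mod_cast h
    rw [ZMod.natCast_eq_zero_iff] at h3
    have := Nat.le_of_dvd (by norm_num) h3
    omega
  · exact h

/-- all classes but `0` and `v₀`, and two of them twice -/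
theorem pair (hp : 5 ≤ p) (hMT : MT p g n) (hn0 : n 0 = 0) {v₀ e₁ e₂ : ZMod p}
    (h1 : e₁ ≠ 0) (h2 : e₂ ≠ 0) (h12 : e₁ ≠ e₂) (he : e₁ + e₂ = v₀) (hv : v₀ ≠ 0)
    (hn : ∀ v, v ≠ 0 → v ≠ v₀ → 2 ≤ n v) :
    n e₁ + n e₂ ≤ 2 * n v₀ ∨ n e₁ + n e₂ + p ≤ n v₀ + (p - 2) * g := by
  classical
  have h1v : e₁ ≠ v₀ := by
    rintro rfl
    apply h2
    rwa [add_eq_left] at he
  have h2v : e₂ ≠ v₀ := by
    rintro rfl
    apply h1
    rwa [add_eq_right] at he
  set c : ZMod p → ℕ := fun v => (if v = 0 then 0 else if v = v₀ then 0 else 1) +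
    (if v = e₁ then 1 else 0) + (if v = e₂ then 1 else 0) with hc
  have hcst : ∀ v : ZMod p, ((if v = 0 then 0 else if v = v₀ then 0 else 1) : ℕ) +
      (if v = 0 then 1 else 0) + (if v = v₀ then 1 else 0) = 1 := by
    intro v
    by_cases hv0 : v = 0
    · rw [if_pos hv0, if_pos hv0, if_neg]
      rw [hv0]
      exact hv.symm
    · rw [if_neg hv0, if_neg hv0]
      by_cases hv1 : v = v₀
      · rw [if_pos hv1, if_pos hv1]
      · rw [if_neg hv1, if_neg hv1]
  have hcard : ∑ v : ZMod p, ((if v = 0 then 0 else if v = v₀ then 0 else 1) : ℕ) = p - 2 := by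
    have h3 := sum_congr (rfl : (univ : Finset (ZMod p)) = univ) (fun v _ => hcst v)
    rw [sum_add_distrib, sum_add_distrib] at h3
    simp only [sum_ite_eq', mem_univ, if_true, sum_const, card_univ, ZMod.card, smul_eq_mul,
      mul_one] at h3
    omega
  have hcsum : ∑ v, c v = p := by
    rw [hc]
    rw [sum_add_distrib, sum_add_distrib, hcard]
    simp only [sum_ite_eq', mem_univ, if_true]
    omega
  have hcs : ∑ v, c v • v = 0 := by
    have h3 : ∀ v, c v • v = v - (if v = v₀ then v else 0) +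
        (if v = e₁ then v else 0) + (if v = e₂ then v else 0) := by
      intro v
      rw [hc]
      simp only [add_nsmul, ite_smul, one_nsmul, zero_nsmul]
      congr 2
      by_cases hv0 : v = 0
      · rw [if_pos hv0, hv0]
        simp
      · rw [if_neg hv0]
        by_cases hv1 : v = v₀
        · rw [if_pos hv1, if_pos hv1, sub_self]
        · rw [if_neg hv1, if_neg hv1, sub_zero]
    simp_rw [h3]
    rw [sum_add_distrib, sum_add_distrib, sum_sub_distrib, sum_all hp]
    simp only [sum_ite_eq', mem_univ, if_true]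
    rw [← he]
    ring
  have hcv : ∀ v, v ≠ 0 → v ≠ v₀ → 1 ≤ c v := by
    intro v hv0 hv1
    show 1 ≤ (if v = 0 then 0 else if v = v₀ then 0 else 1) +
      (if v = e₁ then 1 else 0) + (if v = e₂ then 1 else 0)
    rw [if_neg hv0, if_neg hv1]
    omega
  have hc1 : c e₁ = 2 := by
    show (if e₁ = 0 then 0 else if e₁ = v₀ then 0 else 1) +
      (if e₁ = e₁ then 1 else 0) + (if e₁ = e₂ then 1 else 0) = 2
    rw [if_neg h1, if_neg h1v, if_pos rfl, if_neg h12]
  have hc2 : c e₂ = 2 := by
    show (if e₂ = 0 then 0 else if e₂ = v₀ then 0 else 1) +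
      (if e₂ = e₁ then 1 else 0) + (if e₂ = e₂ then 1 else 0) = 2
    rw [if_neg h2, if_neg h2v, if_pos rfl, if_neg (Ne.symm h12)]
  have hc00 : c 0 = 0 := by
    show (if (0 : ZMod p) = 0 then 0 else if (0 : ZMod p) = v₀ then 0 else 1) +
      (if 0 = e₁ then 1 else 0) + (if 0 = e₂ then 1 else 0) = 0
    rw [if_pos rfl, if_neg (Ne.symm h1), if_neg (Ne.symm h2)]
  have hcv0 : c v₀ = 0 := by
    show (if v₀ = 0 then 0 else if v₀ = v₀ then 0 else 1) +
      (if v₀ = e₁ then 1 else 0) + (if v₀ = e₂ then 1 else 0) = 0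
    rw [if_neg hv, if_pos rfl, if_neg (Ne.symm h1v), if_neg (Ne.symm h2v)]
  have hc2le : ∀ v, c v ≤ 2 := by
    intro v
    show (if v = 0 then 0 else if v = v₀ then 0 else 1) +
      (if v = e₁ then 1 else 0) + (if v = e₂ then 1 else 0) ≤ 2
    have h4 : (if v = 0 then 0 else if v = v₀ then 0 else 1) ≤ 1 := by
      split
      · omega
      · split <;> omega
    by_cases hve : v = e₁
    · have h5 : (if v = e₁ then 1 else 0) = 1 := if_pos hve
      have h6 : (if v = e₂ then 1 else 0) = 0 := if_neg (by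
        rw [hve]
        exact h12)
      omega
    · have h5 : (if v = e₁ then 1 else 0) = 0 := if_neg hve
      have h6 : (if v = e₂ then 1 else 0) ≤ 1 := by split <;> omega
      omega
  have hmt := hMT c {e₁, e₂} (by
    intro v hv
    rw [mem_insert, mem_singleton] at hv
    rcases hv with rfl | rfl
    · rw [hc1]
    · rw [hc2]) (by
    intro v
    by_cases hv0 : v = 0
    · rw [hv0, hc00]
      exact Nat.zero_le _
    by_cases hv1 : v = v₀
    · rw [hv1, hcv0]
      exact Nat.zero_le _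
    exact (hc2le v).trans (hn v hv0 hv1)) hcsum hcs
  have hfil : univ.filter (fun v => c v = 0) = {0, v₀} := by
    ext v
    rw [mem_filter, mem_insert, mem_singleton]
    constructor
    · rintro ⟨-, h⟩
      by_contra hcon
      rw [not_or] at hcon
      have := hcv v hcon.1 hcon.2
      omega
    · rintro (rfl | rfl)
      · exact ⟨mem_univ _, hc00⟩
      · exact ⟨mem_univ _, hcv0⟩
  rw [hfil, sum_pair h12, sum_pair h12, sum_pair h12, sum_pair hv.symm, hc1, hc2, hn0] at hmt
  omega

theorem two_ne (hp : 5 ≤ p) : (2 : ZMod p) ≠ 0 := by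
  intro h
  have h3 : ((2 : ℕ) : ZMod p) = 0 := by exact_mod_cast h
  rw [ZMod.natCast_eq_zero_iff] at h3
  have := Nat.le_of_dvd (by norm_num) h3
  omega

theorem three_ne (hp : 5 ≤ p) : (3 : ZMod p) ≠ 0 := by
  intro h
  have h3 : ((3 : ℕ) : ZMod p) = 0 := by exact_mod_cast h
  rw [ZMod.natCast_eq_zero_iff] at h3
  have := Nat.le_of_dvd (by norm_num) h3
  omega

theorem four_ne (hp : 5 ≤ p) : (4 : ZMod p) ≠ 0 := by
  intro h
  have h3 : ((4 : ℕ) : ZMod p) = 0 := by exact_mod_cast h
  rw [ZMod.natCast_eq_zero_iff] at h3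
  have := Nat.le_of_dvd (by norm_num) h3
  omega

theorem arith_pm2 {nu nw s : ℕ} (hp : 5 ≤ p) (hg : p ≤ g)
    (hnu : nu < p) (hT : nu + nw + s = p * p * g + p) (hw : 2 * nw + 2 ≤ p * p * g + p)
    (h : 2 * s + (p - 3) * p ≤ (p - 3) * (nu + (p - 2) * g)) : False := by
  obtain ⟨r, rfl⟩ : ∃ r, g = p + r := ⟨g - p, by omega⟩
  obtain ⟨q, hq⟩ : ∃ q, p = q + 5 := ⟨p - 5, by omega⟩
  rw [hq] at hnu hT hw h
  rw [show q + 5 - 3 = q + 2 by omega, show q + 5 - 2 = q + 3 by omega] at h
  have h1 : (q + 2) * nu ≤ (q + 2) * (q + 4) := Nat.mul_le_mul_left _ (by omega)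
  have e1 : (q + 5) * (q + 5) * (q + 5 + r) =
      (q + 2) * (q + 3) * (q + 5 + r) + (5 * q + 19) * (q + 5 + r) := by ring
  have e2 : (q + 2) * (nu + (q + 3) * (q + 5 + r)) =
      (q + 2) * nu + (q + 2) * (q + 3) * (q + 5 + r) := by ring
  have e3 : (5 * q + 19) * (q + 5 + r) = 5 * (q * q) + 44 * q + 95 + (5 * q + 19) * r := by ring
  have e4 : (q + 2) * (q + 4) = q * q + 6 * q + 8 := by ring
  rw [e1, e3] at hT hw
  rw [e2] at h
  rw [e4] at h1
  omega

/-- exactly one nonzero poor class -/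
theorem comb_pm2 (hp : 5 ≤ p) (hg : p ≤ g) (hMT : MT p g n) (hn0 : n 0 = 0) {u : ZMod p}
    (hu : u ≠ 0) (hun : n u < p) (hn : ∀ v, v ≠ 0 → v ≠ u → p ≤ n v)
    (hT : ∑ v, n v = p * p * g + p) (hmax : ∀ v, 2 * n v + 2 ≤ p * p * g + p) : False := by
  classical
  have h2 := two_ne (p := p) hp
  set w : ZMod p := u / 2 with hw
  have hww : w + w = u := by
    rw [hw]
    field_simp
    ring
  have hw0 : w ≠ 0 := by
    intro h
    rw [h] at hww
    apply hu
    rw [← hww, add_zero]
  have hwu : w ≠ u := by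
    intro h
    apply hw0
    have h5 : w + w = w := by
      rw [hww]
      exact h.symm
    simpa using h5
  set X : Finset (ZMod p) := ((univ.erase 0).erase u).erase w with hX
  have hmem : ∀ v, v ∈ X ↔ v ≠ w ∧ v ≠ u ∧ v ≠ 0 := by
    intro v
    rw [hX, mem_erase, mem_erase, mem_erase]
    simp
  have h0m : (0 : ZMod p) ∈ (univ : Finset (ZMod p)) := mem_univ _
  have hum : u ∈ univ.erase (0 : ZMod p) := mem_erase.2 ⟨hu, mem_univ _⟩
  have hwm : w ∈ (univ.erase (0 : ZMod p)).erase u :=
    mem_erase.2 ⟨hwu, mem_erase.2 ⟨hw0, mem_univ _⟩⟩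
  have hXc : #X = p - 3 := by
    rw [hX, card_erase_of_mem hwm, card_erase_of_mem hum, card_erase_of_mem h0m, card_univ,
      ZMod.card]
    omega
  have hsum : n u + n w + ∑ v ∈ X, n v = p * p * g + p := by
    rw [← hT, ← add_sum_erase _ _ h0m, hn0, ← add_sum_erase _ _ hum, ← add_sum_erase _ _ hwm, hX]
    omega
  have hpt : ∀ f ∈ X, n f + n (u - f) + p ≤ n u + (p - 2) * g := by
    intro f hf
    rw [hmem] at hf
    have h3 : f ≠ u - f := by
      intro h
      apply hf.1
      have h4 : (2 : ZMod p) * f = 2 * w := by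
        linear_combination h - hww
      exact mul_left_cancel₀ h2 h4
    have h5 : u - f ≠ u := by
      intro h
      apply hf.2.2
      have : f = u - (u - f) := by ring
      rw [this, h, sub_self]
    have h6 : u - f ≠ 0 := fun h => hf.2.1 (sub_eq_zero.1 h).symm
    have h4 := pair hp hMT hn0 (v₀ := u) (e₁ := f) (e₂ := u - f) hf.2.2 h6 h3 (by ring) hu
      (fun v hv hvu => le_trans (by omega) (hn v hv hvu))
    have h7 := hn f hf.2.2 hf.2.1
    have h8 := hn (u - f) h6 h5
    omega
  have h3 := sum_le_sum hpt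
  rw [sum_add_distrib, sum_add_distrib, sum_const, sum_const, hXc, smul_eq_mul, smul_eq_mul] at h3
  have h4 : ∑ f ∈ X, n (u - f) = ∑ f ∈ X, n f := by
    apply sum_nbij' (fun f => u - f) (fun f => u - f)
    · intro f hf
      rw [hmem] at hf ⊢
      refine ⟨fun h => hf.1 ?_, fun h => hf.2.2 ?_, fun h => hf.2.1 (sub_eq_zero.1 h).symm⟩
      · linear_combination -hww - h
      · linear_combination -h
    · intro f hf
      rw [hmem] at hf ⊢
      refine ⟨fun h => hf.1 ?_, fun h => hf.2.2 ?_, fun h => hf.2.1 (sub_eq_zero.1 h).symm⟩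
      · linear_combination -hww - h
      · linear_combination -h
    · intro f _
      ring
    · intro f _
      ring
    · intro f _
      rfl
  rw [h4] at h3
  exact arith_pm2 hp hg hun hsum (hmax w) (by omega)

/-- all classes are above the threshold -/
theorem comb_min (hp : 5 ≤ p) (hMT : MT p g n) (hn0 : n 0 = 0)
    (hn : ∀ v, v ≠ 0 → p ≤ n v) {θ : ℕ} (hθ : θ + p = (p - 2) * g)
    (hall : ∀ v, v ≠ 0 → θ < n v)
    (hT : ∑ v, n v = p * p * g + p) (hmod : ∀ m, (p - 1) * m ≠ p * p * g + p) : False := by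
  classical
  have h2 := two_ne (p := p) hp
  have hne : (univ.erase (0 : ZMod p)).Nonempty := by
    rw [← card_pos, card_erase_of_mem (mem_univ _), card_univ, ZMod.card]
    omega
  obtain ⟨v₀, hv₀, hm⟩ := exists_min_image _ n hne
  have hv0 : v₀ ≠ 0 := (mem_erase.1 hv₀).1
  set m := n v₀ with hm'
  have hmin : ∀ v, v ≠ 0 → m ≤ n v := fun v hv => hm v (mem_erase.2 ⟨hv, mem_univ _⟩)
  have hkey : ∀ a, a ≠ 0 → n a = m → ∀ e, e ≠ 0 → e ≠ a → e + e ≠ a → n e = m := by
    intro a ha hna e he hea hee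
    have h4 : a - e ≠ 0 := fun h => hea (sub_eq_zero.1 h).symm
    have h5 : e ≠ a - e := by
      intro h
      apply hee
      linear_combination h
    have h3 := pair hp hMT hn0 (v₀ := a) (e₁ := e) (e₂ := a - e) he h4 h5 (by ring) ha
      (fun v hv _ => le_trans (by omega) (hn v hv))
    have h6 := hmin e he
    have h7 := hmin (a - e) h4
    have h8 := hall e he
    have h9 := hall (a - e) h4
    rw [hna] at h3
    omega
  set w : ZMod p := v₀ / 2 with hw
  have hww : w + w = v₀ := by
    rw [hw]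
    field_simp
    ring
  have hw0 : w ≠ 0 := by
    intro h
    rw [h] at hww
    apply hv0
    rw [← hww, add_zero]
  have hwinj : ∀ e : ZMod p, e + e = v₀ → e = w := by
    intro e he
    have h4 : (2 : ZMod p) * e = 2 * w := by linear_combination he - hww
    exact mul_left_cancel₀ h2 h4
  -- a third class
  obtain ⟨a, ha⟩ : ∃ a, a ∉ ({0, v₀, w} : Finset (ZMod p)) := by
    by_contra hcon
    push Not at hcon
    have h3 : #(univ : Finset (ZMod p)) ≤ #({0, v₀, w} : Finset (ZMod p)) :=
      card_le_card (fun a _ => hcon a)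
    have h4 := card_le_three (a := (0 : ZMod p)) (b := v₀) (c := w)
    rw [card_univ, ZMod.card] at h3
    omega
  rw [mem_insert, mem_insert, mem_singleton, not_or, not_or] at ha
  have hna : n a = m := hkey v₀ hv0 rfl a ha.1 ha.2.1 (fun h => ha.2.2 (hwinj a h))
  have hnw : n w = m := hkey a ha.1 hna w hw0 (Ne.symm ha.2.2) (by
    rw [hww]
    exact Ne.symm ha.2.1)
  have hallm : ∀ e ∈ univ.erase (0 : ZMod p), n e = m := by
    intro e he
    have he0 := (mem_erase.1 he).1
    by_cases h1 : e = v₀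
    · rw [h1]
    by_cases h3 : e = w
    · rw [h3, hnw]
    exact hkey v₀ hv0 rfl e he0 h1 (fun h => h3 (hwinj e h))
  apply hmod m
  rw [← hT, ← add_sum_erase _ _ (mem_univ (0 : ZMod p)), hn0, sum_congr rfl hallm, sum_const,
    card_erase_of_mem (mem_univ _), card_univ, ZMod.card, smul_eq_mul, zero_add]

theorem arith_full {θ k s : ℕ} (hp : 5 ≤ p) (hg : p ≤ g) (hθ : θ + p = (p - 2) * g)
    (hk : k + 1 ≤ p) (hs : s ≤ 2 * θ) (h : p * p * g + p ≤ k * s + (p - 1 - k) * θ) (hk3 : k ≤ 3) :
    False := by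
  obtain ⟨r, rfl⟩ : ∃ r, g = p + r := ⟨g - p, by omega⟩
  obtain ⟨q, hq⟩ : ∃ q, p = q + 5 := ⟨p - 5, by omega⟩
  rw [hq] at hθ h hk
  rw [show q + 5 - 2 = q + 3 by omega] at hθ
  obtain ⟨l, hl⟩ : ∃ l, q + 5 - 1 - k = l := ⟨_, rfl⟩
  rw [hl] at h
  have h1 : k * s ≤ k * (2 * θ) := Nat.mul_le_mul_left _ hs
  have h2 : k * (2 * θ) + l * θ = (2 * k + l) * θ := by ring
  have h3 : (2 * k + l) * θ ≤ (q + 7) * θ := Nat.mul_le_mul_right _ (by omega)
  have h4 : (q + 7) * (θ + (q + 5)) = (q + 7) * ((q + 3) * (q + 5 + r)) := by rw [hθ]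
  have e1 : (q + 5) * (q + 5) * (q + 5 + r) =
      q * q * q + 15 * (q * q) + 75 * q + 125 + (q * q + 10 * q + 25) * r := by ring
  have e2 : (q + 7) * ((q + 3) * (q + 5 + r)) =
      q * q * q + 15 * (q * q) + 71 * q + 105 + (q * q + 10 * q + 21) * r := by ring
  have e3 : (q + 7) * (θ + (q + 5)) = (q + 7) * θ + q * q + 12 * q + 35 := by ring
  have e4 : (q * q + 10 * q + 25) * r = (q * q + 10 * q + 21) * r + 4 * r := by ring
  rw [e1, e4] at h
  rw [e2, e3] at h4
  omega

/-- all nonzero classes are rich -/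
theorem comb_full (hp : 5 ≤ p) (hg : p ≤ g) (hMT : MT p g n) (hn0 : n 0 = 0)
    (hn : ∀ v, v ≠ 0 → p ≤ n v) (hT : ∑ v, n v = p * p * g + p)
    (hmod : ∀ m, (p - 1) * m ≠ p * p * g + p) : False := by
  classical
  have hpp : p.Prime := Fact.out
  have h2 := two_ne (p := p) hp
  have h3 := three_ne (p := p) hp
  have h4 := four_ne (p := p) hp
  obtain ⟨θ, hθ⟩ : ∃ θ, θ + p = (p - 2) * g := by
    have : 3 * p ≤ (p - 2) * g := Nat.mul_le_mul (by omega) hg
    exact ⟨(p - 2) * g - p, by omega⟩
  -- the closure property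
  have hstep : ∀ a b, a ≠ 0 → b ≠ 0 → a ≠ b → a + b ≠ 0 → 2 * θ < n a + n b → θ < n (a + b) := by
    intro a b ha hb hab hs' h
    have h5 := pair hp hMT hn0 (v₀ := a + b) ha hb hab rfl hs'
      (fun v hv _ => le_trans (by omega) (hn v hv))
    omega
  by_cases hall : ∀ v, v ≠ 0 → θ < n v
  · exact comb_min hp hMT hn0 hn hθ hall hT hmod
  push Not at hall
  obtain ⟨z, hz0, hz⟩ := hall
  set L : Finset (ZMod p) := univ.filter (fun v => θ < n v) with hL
  have hmemL : ∀ v, v ∈ L ↔ θ < n v := by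
    intro v
    rw [hL, mem_filter]
    simp
  have h0L : (0 : ZMod p) ∉ L := by
    rw [hmemL, hn0]
    omega
  -- at most three classes above the threshold
  have hL3 : #L ≤ 3 := by
    by_contra hcon
    push Not at hcon
    set B := insert (0 : ZMod p) L with hB
    have hBc : #B = #L + 1 := card_insert_of_notMem h0L
    have htw : tw B ⊆ B := by
      intro t ht
      rw [mem_tw] at ht
      obtain ⟨a, ha, b, hb, hab, rfl⟩ := ht
      rw [hB, mem_insert] at ha hb ⊢
      by_cases hs0 : a + b = 0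
      · exact Or.inl hs0
      right
      rcases ha with rfl | ha
      · rcases hb with rfl | hb
        · exact absurd rfl hab
        · rwa [zero_add]
      · rcases hb with rfl | hb
        · rwa [add_zero]
        · have ha0 : a ≠ 0 := fun h => h0L (h ▸ ha)
          have hb0 : b ≠ 0 := fun h => h0L (h ▸ hb)
          rw [hmemL] at ha hb ⊢
          exact hstep a b ha0 hb0 hab hs0 (by omega)
    have hd : #(hs (st (tw B))) ∣ p := by
      have := card_hs_dvd (st (tw B))
      rwa [ZMod.card] at this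
    have hne : (tw B).Nonempty := tw_nonempty (by omega)
    rcases (Nat.dvd_prime hpp).1 hd with h | h
    · have h5 := tw_aperiodic (fun g hg => by
        have : (2 : ZMod p) * g = 0 := by
          rw [two_mul]
          exact hg
        exact (mul_eq_zero.1 this).resolve_left h2) (B := B) (by omega) h
      have h6 := card_le_card htw
      omega
    · have h5 : #(hs (st (tw B))) ∣ #(tw B) := dvd_card_of_per (per_st _)
      have h6 := Nat.le_of_dvd hne.card_pos h5
      have h7 := card_le_card htw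
      have h8 : B = univ := by
        apply (card_eq_iff_eq_univ _).1
        apply le_antisymm (card_le_univ _)
        rw [ZMod.card]
        omega
      have h9 : z ∈ B := by
        rw [h8]
        exact mem_univ _
      rw [hB, mem_insert, hmemL] at h9
      rcases h9 with h9 | h9
      · exact hz0 h9
      · omega
  obtain ⟨f, -, hf⟩ := exists_max_image univ n ⟨(0 : ZMod p), mem_univ _⟩
  have hf2 : 2 * θ < n f := by
    by_contra hcon
    push Not at hcon
    have h5 := sum_filter_add_sum_filter_not univ (fun v => v ∈ L) n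
    rw [filter_mem_eq_inter, univ_inter, hT] at h5
    have h6 : ∑ v ∈ L, n v ≤ #L * n f := by
      have := sum_le_card_nsmul L n (n f) (fun v _ => hf v (mem_univ v))
      rwa [smul_eq_mul] at this
    have h0m : (0 : ZMod p) ∈ univ.filter (fun v => v ∉ L) := by
      rw [mem_filter]
      exact ⟨mem_univ _, h0L⟩
    have hcc : #(univ.filter (fun v => v ∉ L)) + #L = p := by
      have h7 := card_filter_add_card_filter_not (s := (univ : Finset (ZMod p))) (fun v => v ∈ L)
      rw [filter_mem_eq_inter, univ_inter, card_univ, ZMod.card] at h7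
      omega
    have h7 : ∑ v ∈ univ.filter (fun v => v ∉ L), n v ≤ (p - 1 - #L) * θ := by
      rw [← add_sum_erase _ _ h0m, hn0, zero_add]
      have h8 := sum_le_card_nsmul ((univ.filter (fun v => v ∉ L)).erase 0) n θ (by
        intro v hv
        rw [mem_erase, mem_filter, hmemL] at hv
        omega)
      rw [card_erase_of_mem h0m, smul_eq_mul] at h8
      have h9 : #(univ.filter (fun v => v ∉ L)) - 1 = p - 1 - #L := by omega
      rwa [h9] at h8
    have h8 := card_pos.2 ⟨_, h0m⟩
    exact arith_full hp hg hθ (k := #L) (s := n f) (by omega) hcon (by omega) hL3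
  have hf0 : f ≠ 0 := by
    rintro rfl
    omega
  -- all but `2 f`
  have hmost : ∀ w, w ≠ 0 → w ≠ f → w ≠ f + f → θ < n w := by
    intro w hw hwf hwff
    have h5 := hstep f (w - f) hf0 (fun h => hwf (sub_eq_zero.1 h)) (fun h => hwff (by
      linear_combination -h)) (by
      rw [add_sub_cancel]
      exact hw) (by
      have h6 := hn (w - f) (fun h => hwf (sub_eq_zero.1 h))
      omega)
    rwa [add_sub_cancel] at h5
  have hff : θ < n (f + f) := by
    have h5 : θ < n (f + f + f) := hmost _ (fun h => by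
        have h6 : (3 : ZMod p) * f = 0 := by linear_combination h
        rcases mul_eq_zero.1 h6 with h7 | h7
        · exact h3 h7
        · exact hf0 h7) (fun h => by
        have h6 : (2 : ZMod p) * f = 0 := by linear_combination h
        rcases mul_eq_zero.1 h6 with h7 | h7
        · exact h2 h7
        · exact hf0 h7) (fun h => hf0 (by linear_combination h))
    have h6 : θ < n (-f) := hmost _ (neg_ne_zero.2 hf0) (fun h => by
        have h6 : (2 : ZMod p) * f = 0 := by linear_combination -h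
        rcases mul_eq_zero.1 h6 with h7 | h7
        · exact h2 h7
        · exact hf0 h7) (fun h => by
        have h6 : (3 : ZMod p) * f = 0 := by linear_combination -h
        rcases mul_eq_zero.1 h6 with h7 | h7
        · exact h3 h7
        · exact hf0 h7)
    have h7 := hstep (f + f + f) (-f) (fun h => by
        have h6 : (3 : ZMod p) * f = 0 := by linear_combination h
        rcases mul_eq_zero.1 h6 with h7 | h7
        · exact h3 h7
        · exact hf0 h7) (neg_ne_zero.2 hf0) (fun h => by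
        have h6 : (4 : ZMod p) * f = 0 := by linear_combination h
        rcases mul_eq_zero.1 h6 with h7 | h7
        · exact h4 h7
        · exact hf0 h7) (fun h => by
        have h6 : (2 : ZMod p) * f = 0 := by linear_combination h
        rcases mul_eq_zero.1 h6 with h7 | h7
        · exact h2 h7
        · exact hf0 h7) (by omega)
    rwa [show f + f + f + -f = f + f by ring] at h7
  have h5 : θ < n z := by
    by_cases hzf : z = f
    · rw [hzf]
      omega
    by_cases hzff : z = f + f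
    · rw [hzff]
      exact hff
    exact hmost z hz0 hzf hzff
  omega

/-- **counting** -/
theorem comb (hp : 5 ≤ p) (hg : p ≤ g) (hMT : MT p g n) (hn0 : n 0 = 0)
    (hT : ∑ v, n v = p * p * g + p) (hmax : ∀ v, 2 * n v + 2 ≤ p * p * g + p)
    (hmod : ∀ m, (p - 1) * m ≠ p * p * g + p) : False := by
  classical
  set X : Finset (ZMod p) := univ.filter (fun v => p ≤ n v) with hX
  have hmem : ∀ v, v ∈ X ↔ p ≤ n v := by
    intro v
    rw [hX, mem_filter]
    simp
  have h0X : (0 : ZMod p) ∉ X := by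
    rw [hmem, hn0]
    omega
  have h0m : (0 : ZMod p) ∈ univ.filter (fun v => v ∉ X) := by
    rw [mem_filter]
    exact ⟨mem_univ _, h0X⟩
  have hcc : #(univ.filter (fun v => v ∉ X)) + #X = p := by
    have h7 := card_filter_add_card_filter_not (s := (univ : Finset (ZMod p))) (fun v => v ∈ X)
    rw [filter_mem_eq_inter, univ_inter, card_univ, ZMod.card] at h7
    omega
  have h1 := card_pos.2 ⟨_, h0m⟩
  have hlam : ∑ v ∈ univ.filter (fun v => v ∉ X), n v ≤ (p - 1 - #X) * (p - 1) := by
    rw [← add_sum_erase _ _ h0m, hn0, zero_add]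
    have h8 := sum_le_card_nsmul ((univ.filter (fun v => v ∉ X)).erase 0) n (p - 1) (by
      intro v hv
      rw [mem_erase, mem_filter, hmem] at hv
      omega)
    rw [card_erase_of_mem h0m, smul_eq_mul] at h8
    have h9 : #(univ.filter (fun v => v ∉ X)) - 1 = p - 1 - #X := by omega
    rwa [h9] at h8
  have hsplit := sum_filter_add_sum_filter_not univ (fun v => v ∈ X) n
  rw [filter_mem_eq_inter, univ_inter, hT] at hsplit
  have hbig : 25 * p ≤ p * p * g := by
    have h2 : 5 * 5 ≤ p * p := Nat.mul_le_mul hp hp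
    exact Nat.mul_le_mul h2 hg
  have hbig2 : p * p * 5 ≤ p * p * g := Nat.mul_le_mul_left _ (by omega)
  have hpsq : (p - 1) * (p - 1) ≤ p * p := Nat.mul_le_mul (by omega) (by omega)
  rcases Nat.lt_or_ge (#X) 2 with hb | hb
  · -- at most one rich class
    have h2 : 2 * ∑ v ∈ X, n v ≤ #X * (p * p * g + p - 2) := by
      have h3 := sum_le_card_nsmul X (fun v => 2 * n v) (p * p * g + p - 2) (fun v _ => by
        have := hmax v
        show 2 * n v ≤ _
        omega)
      rwa [smul_eq_mul, ← mul_sum] at h3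
    have h3 : (p - 1 - #X) * (p - 1) ≤ (p - 1) * (p - 1) := Nat.mul_le_mul_right _ (by omega)
    have h4 : #X * (p * p * g + p - 2) ≤ 1 * (p * p * g + p - 2) :=
      Nat.mul_le_mul_right _ (by omega)
    omega
  rcases Nat.lt_or_ge (#X) 3 with hb3 | hb3
  · obtain ⟨f₁, f₂, hf, hXf⟩ := card_eq_two.1 (show #X = 2 by omega)
    have hm1 : f₁ ∈ X := by
      rw [hXf]
      exact mem_insert_self _ _
    have hm2 : f₂ ∈ X := by
      rw [hXf]
      exact mem_insert_of_mem (mem_singleton_self _)
    rw [show #X = 2 by omega, hXf, show p - 1 - 2 = p - 3 by omega] at hlam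
    exact comb_two hp hg hMT hf ((hmem _).1 hm1) ((hmem _).1 hm2) hT hmax hlam
  rcases Nat.lt_or_ge (#X + 2) p with hb4 | hb4
  · exact comb_mid hg hMT (fun v hv => (hmem v).1 hv) hb3 (by omega) hT hlam
  have hcard : #((univ.filter (fun v => v ∉ X)).erase 0) = p - #X - 1 := by
    rw [card_erase_of_mem h0m]
    omega
  rcases Nat.lt_or_ge (#X + 1) p with hb5 | hb5
  · -- one poor class
    obtain ⟨u, hu⟩ := card_eq_one.1 (show #((univ.filter (fun v => v ∉ X)).erase 0) = 1 by omega)
    have hum : u ∈ (univ.filter (fun v => v ∉ X)).erase 0 := by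
      rw [hu]
      exact mem_singleton_self _
    rw [mem_erase, mem_filter, hmem] at hum
    refine comb_pm2 hp hg hMT hn0 hum.1 (by omega) ?_ hT hmax
    intro v hv hvu
    by_contra hcon
    apply hvu
    rw [← mem_singleton, ← hu, mem_erase, mem_filter, hmem]
    exact ⟨hv, mem_univ _, hcon⟩
  · have hem : (univ.filter (fun v => v ∉ X)).erase 0 = ∅ := card_eq_zero.1 (by omega)
    refine comb_full hp hg hMT hn0 ?_ hT hmod
    intro v hv
    by_contra hcon
    have h5 : v ∈ (univ.filter (fun v => v ∉ X)).erase 0 := by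
      rw [mem_erase, mem_filter, hmem]
      exact ⟨hv, mem_univ _, hcon⟩
    rw [hem] at h5
    exact absurd h5 (notMem_empty _)

end comb

end Pool.Agent.Lib.MPa7239a.TP
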