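import Pool.Agent.Lib.MP_a7239a_co.Q3.K3
import Pool.Agent.Lib.MP_a7239a_co.Popular

/-!
# Sums of `c` distinct elements of a set with more than half of the elements of a group

If all prime factors of `|H|` are at least `p`, if `2 |B| ≥ |H| + p` and `2 ≤ c ≤ p`, then every
element of `H` is a sum of `c` distinct elements of `B`, except possibly if `c = p` and `|H|` is `p`
or `p + 2`. The proof uses pairs `{a, z - a}` in `B`, which are disjoint and have the same sum.
-/

open scoped Pointwise
open Finset

set_option linter.unusedSectionVars false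

namespace Pool.Agent.Lib.MPa7239a.TP

open Pool.Agent.Lib.MPa7239a.Q3

universe u v

section group

variable {H : Type u} [AddCommGroup H] [Fintype H] [DecidableEq H]

theorem exists_pairs {z : H} {R : Finset H} (hR : ∀ a ∈ R, z - a ∈ R ∧ z - a ≠ a) :
    ∀ m : ℕ, 2 * m ≤ #R → ∃ T ⊆ R, #T = 2 * m ∧ (∀ a ∈ T, z - a ∈ T) ∧ ∑ a ∈ T, a = m • z := by
  intro m
  induction m with
  | zero =>
    intro _
    exact ⟨∅, empty_subset _, by simp, by simp, by simp⟩
  | succ m ih =>
    intro hm
    obtain ⟨T, hTR, hTc, hTi, hTs⟩ := ih (by omega)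
    have hex : ∃ a ∈ R, a ∉ T := by
      by_contra hcon
      push Not at hcon
      have := card_le_card (show R ⊆ T from hcon)
      omega
    obtain ⟨a, haR, haT⟩ := hex
    have hz := hR a haR
    have hzT : z - a ∉ T := fun h => haT (by
      have := hTi _ h
      rwa [sub_sub_cancel] at this)
    refine ⟨insert a (insert (z - a) T), ?_, ?_, ?_, ?_⟩
    · intro b hb
      rw [mem_insert, mem_insert] at hb
      rcases hb with rfl | rfl | hb
      · exact haR
      · exact hz.1
      · exact hTR hb
    · rw [card_insert_of_notMem, card_insert_of_notMem hzT, hTc]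
      · ring
      · rw [mem_insert, not_or]
        exact ⟨fun h => hz.2 h.symm, haT⟩
    · intro b hb
      rw [mem_insert, mem_insert] at hb ⊢
      rcases hb with rfl | rfl | hb
      · exact Or.inr (Or.inl rfl)
      · left
        rw [sub_sub_cancel]
      · exact Or.inr (Or.inr (hTi b hb))
    · rw [sum_insert, sum_insert hzT, hTs, succ_nsmul]
      · abel
      · rw [mem_insert, not_or]
        exact ⟨fun h => hz.2 h.symm, haT⟩

/-- the number of ways to write `z` as a sum of two elements of `B` -/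
def rr (B : Finset H) (z : H) : Finset H := B.filter (fun a => z - a ∈ B)

/-- the same, with two different elements -/
def rd (B : Finset H) (z : H) : Finset H := B.filter (fun a => z - a ∈ B ∧ z - a ≠ a)

theorem rr_ge (B : Finset H) (z : H) : 2 * #B ≤ Fintype.card H + #(rr B z) := by
  have h1 : #(B.image (fun a => z - a)) = #B := card_image_of_injective _ (sub_right_injective)
  have h2 : rr B z = B ∩ B.image (fun a => z - a) := by
    ext a
    rw [rr, mem_filter, mem_inter, mem_image]
    constructor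
    · rintro ⟨h, h'⟩
      exact ⟨h, _, h', sub_sub_cancel z a⟩
    · rintro ⟨h, b, hb, rfl⟩
      exact ⟨h, by rwa [sub_sub_cancel]⟩
  have h3 := card_union_add_card_inter B (B.image (fun a => z - a))
  have h4 : #(B ∪ B.image (fun a => z - a)) ≤ Fintype.card H := card_le_univ _
  rw [h2]
  omega

theorem rd_prop {B : Finset H} {z : H} : ∀ a ∈ rd B z, z - a ∈ rd B z ∧ z - a ≠ a := by
  intro a ha
  rw [rd, mem_filter] at ha
  refine ⟨?_, ha.2.2⟩
  rw [rd, mem_filter, sub_sub_cancel]
  exact ⟨ha.2.1, ha.1, fun h => ha.2.2 h.symm⟩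

variable {p : ℕ}

theorem coprime_of (hH : ∀ q, q.Prime → q ∣ Fintype.card H → p ≤ q) {m : ℕ} (hm : 0 < m)
    (hmp : m < p) : (Fintype.card H).Coprime m := by
  by_contra hcon
  obtain ⟨q, hq, hqd⟩ := Nat.exists_prime_and_dvd hcon
  have h1 := hH q hq (hqd.trans (Nat.gcd_dvd_left _ _))
  have h2 := Nat.le_of_dvd hm (hqd.trans (Nat.gcd_dvd_right _ _))
  omega

theorem exists_div {m : ℕ} (hm : (Fintype.card H).Coprime m) (x : H) : ∃ z : H, m • z = x := by
  have h1 : (Nat.card H).Coprime m := by rwa [Nat.card_eq_fintype_card]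
  exact ⟨(nsmulCoprime h1).symm x, (nsmulCoprime h1).apply_symm_apply x⟩

theorem div_inj {m : ℕ} (hm : (Fintype.card H).Coprime m) {a b : H} (h : m • a = m • b) :
    a = b := by
  have h1 : (Nat.card H).Coprime m := by rwa [Nat.card_eq_fintype_card]
  exact (nsmulCoprime h1).injective h

theorem rd_ge (hp : 5 ≤ p) (hH : ∀ q, q.Prime → q ∣ Fintype.card H → p ≤ q) {B : Finset H}
    (z : H) : #(rr B z) ≤ #(rd B z) + 1 := by
  have h1 : rr B z ⊆ rd B z ∪ B.filter (fun a => z - a = a) := by
    intro a ha
    rw [rr, mem_filter] at ha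
    rw [mem_union, rd, mem_filter, mem_filter]
    by_cases h : z - a = a
    · exact Or.inr ⟨ha.1, h⟩
    · exact Or.inl ⟨ha.1, ha.2, h⟩
  have h2 : #(B.filter (fun a => z - a = a)) ≤ 1 := by
    rw [card_le_one]
    intro a ha b hb
    rw [mem_filter] at ha hb
    apply div_inj (coprime_of hH (m := 2) (by norm_num) (by omega))
    rw [two_nsmul, two_nsmul]
    have h3 : a + a = z := (sub_eq_iff_eq_add.1 ha.2).symm
    have h4 : b + b = z := (sub_eq_iff_eq_add.1 hb.2).symm
    rw [h3, h4]
  have h3 := card_le_card h1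
  have h4 := card_union_le (rd B z) (B.filter (fun a => z - a = a))
  omega

theorem even_rd (B : Finset H) (z : H) : #(rd B z) % 2 = 0 := by
  have h : ∑ _a ∈ rd B z, (1 : ZMod 2) = 0 := by
    refine Finset.sum_involution (fun a _ => z - a) ?_ ?_ ?_ ?_
    · intro a _
      decide
    · intro a ha _
      exact (rd_prop a ha).2
    · intro a ha
      exact (rd_prop a ha).1
    · intro a _
      exact sub_sub_cancel z a
  rw [sum_const, nsmul_eq_mul, mul_one, ZMod.natCast_eq_zero_iff] at h
  exact Nat.mod_eq_zero_of_dvd h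

theorem DS_even (hH : ∀ q, q.Prime → q ∣ Fintype.card H → p ≤ q) {B : Finset H} {m : ℕ}
    (hm : 0 < m) (hmp : m < p) {x : H} (h : ∀ z, 2 * m ≤ #(rd B z)) : DS B (2 * m) x := by
  obtain ⟨z, hz⟩ := exists_div (coprime_of hH hm hmp) x
  obtain ⟨T, hT, hTc, -, hTs⟩ := exists_pairs (rd_prop (B := B) (z := z)) m (h z)
  exact ⟨T, hT.trans (filter_subset _ _), hTc, hTs.trans hz⟩

/-- pairs that avoid `b` -/
theorem DS_odd {B : Finset H} {m : ℕ} {z b : H} (hb : b ∈ B)
    (h : 2 * m ≤ #((rd B z).erase b |>.erase (z - b))) : DS B (2 * m + 1) (m • z + b) := by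
  obtain ⟨T, hT, hTc, -, hTs⟩ := exists_pairs (z := z) (R := ((rd B z).erase b).erase (z - b)) (by
    intro a ha
    rw [mem_erase, mem_erase] at ha
    have h1 := rd_prop a ha.2.2
    refine ⟨?_, h1.2⟩
    rw [mem_erase, mem_erase]
    refine ⟨fun h2 => ha.2.1 (sub_right_injective h2), fun h2 => ha.1 ?_, h1.1⟩
    rw [← h2, sub_sub_cancel]) m h
  have hbT : b ∉ T := fun h1 => by
    have := hT h1
    rw [mem_erase, mem_erase] at this
    exact this.2.1 rfl
  refine ⟨insert b T, ?_, ?_, ?_⟩
  · intro a ha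
    rw [mem_insert] at ha
    rcases ha with rfl | ha
    · exact hb
    · have := hT ha
      rw [mem_erase, mem_erase, rd, mem_filter] at this
      exact this.2.2.1
  · rw [card_insert_of_notMem hbT, hTc]
  · rw [sum_insert hbT, hTs, add_comm]

theorem card_erase_two (B : Finset H) (z b : H) :
    #(rd B z) ≤ #(((rd B z).erase b).erase (z - b)) + 2 := by
  have h1 := pred_card_le_card_erase (s := rd B z) (a := b)
  have h2 := pred_card_le_card_erase (s := (rd B z).erase b) (a := z - b)
  omega

/-- sums of fewer than `p` distinct elements -/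
theorem DS_mid (hp : 5 ≤ p) (hodd : p % 2 = 1)
    (hH : ∀ q, q.Prime → q ∣ Fintype.card H → p ≤ q) {B : Finset H}
    (hB : Fintype.card H + p ≤ 2 * #B) {c : ℕ} (hc : 2 ≤ c) (hcp : c < p) (x : H) :
    DS B c x := by
  have hrd : ∀ z, p ≤ #(rd B z) + 1 := by
    intro z
    have h1 := rr_ge B z
    have h2 := rd_ge hp hH (B := B) z
    omega
  rcases Nat.even_or_odd' c with ⟨m, rfl | rfl⟩
  · apply DS_even hH (by omega) (by omega)
    intro z
    have := hrd z
    omega
  · have hne : B.Nonempty := by
      rw [← card_pos]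
      omega
    obtain ⟨b, hb⟩ := hne
    obtain ⟨z, hz⟩ := exists_div (coprime_of hH (m := m) (by omega) (by omega)) (x - b)
    have h1 := DS_odd (m := m) (z := z) hb (by
      have h2 := card_erase_two B z b
      have h3 := hrd z
      omega)
    rwa [hz, sub_add_cancel] at h1

/-- sums of `p` distinct elements -/
theorem DS_top (hpp : p.Prime) (hp : 5 ≤ p)
    (hH : ∀ q, q.Prime → q ∣ Fintype.card H → p ≤ q) {B : Finset H}
    (hB : Fintype.card H + p ≤ 2 * #B) (hn : Fintype.card H ≠ p)
    (hn2 : Fintype.card H ≠ p + 2) (x : H) : DS B p x := by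
  classical
  by_contra hno
  have hodd : p % 2 = 1 := hpp.eq_two_or_odd.resolve_left (by omega)
  obtain ⟨m, hm⟩ : ∃ m, p = 2 * m + 1 := ⟨p / 2, by omega⟩
  set n := Fintype.card H with hn'
  set b := #B with hb'
  have hcop := coprime_of hH (m := m) (by omega) (by omega)
  -- the failing sums
  have hrp : ∀ z, x - m • z ∈ B → #(rr B z) ≤ p := by
    intro z hz
    set c := x - m • z with hc
    have hx : m • z + c = x := by rw [hc, add_sub_cancel]
    have h1 : ¬ 2 * m ≤ #(((rd B z).erase c).erase (z - c)) := by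
      intro h
      apply hno
      have := DS_odd hz h
      rwa [hx, ← hm] at this
    have h2 := card_erase_two B z c
    have h3 := rd_ge hp hH (B := B) z
    have h4 := even_rd B z
    omega
  -- double counting
  have hsum : ∑ z : H, #(rr B z) = b * b := by
    have h1 : ∀ z, #(rr B z) = ∑ a ∈ B, if z - a ∈ B then 1 else 0 := by
      intro z
      rw [rr, card_filter]
    simp_rw [h1]
    rw [sum_comm]
    have h2 : ∀ a ∈ B, ∑ z : H, (if z - a ∈ B then 1 else 0) = b := by
      intro a _
      rw [← card_filter, hb']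
      apply card_bij' (fun z _ => z - a) (fun c _ => c + a)
      · intro z hz
        exact (mem_filter.1 hz).2
      · intro c hc
        rw [mem_filter, add_sub_cancel_right]
        exact ⟨mem_univ _, hc⟩
      · intro z _
        exact sub_add_cancel z a
      · intro c _
        exact add_sub_cancel_right c a
    rw [sum_congr rfl h2, sum_const, smul_eq_mul]
  set Z := univ.filter (fun z : H => x - m • z ∈ B) with hZ
  set Z' := univ.filter (fun z : H => ¬ x - m • z ∈ B) with hZ'
  have hZc : #Z = b := by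
    rw [hZ, hb']
    apply card_bij (fun z _ => x - m • z)
    · intro z hz
      exact (mem_filter.1 hz).2
    · intro z _ z' _ h
      exact div_inj hcop (sub_right_injective h)
    · intro c hc
      obtain ⟨z, hz⟩ := exists_div hcop (x - c)
      refine ⟨z, ?_, ?_⟩
      · rw [mem_filter, hz, sub_sub_cancel]
        exact ⟨mem_univ _, hc⟩
      · rw [hz, sub_sub_cancel]
  have hZZ : #Z + #Z' = n := by
    rw [hn', ← card_univ]
    exact card_filter_add_card_filter_not _
  have hsplit : ∑ z ∈ Z, #(rr B z) + ∑ z ∈ Z', #(rr B z) = b * b := by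
    rw [← hsum]
    exact sum_filter_add_sum_filter_not _ _ _
  have h1 : ∑ z ∈ Z, #(rr B z) ≤ b * p := by
    rw [← hZc, ← smul_eq_mul]
    exact sum_le_card_nsmul _ _ _ (fun z hz => hrp z (mem_filter.1 hz).2)
  have hrb : ∀ z, #(rr B z) ≤ b := fun z => card_filter_le _ _
  have h2 : ∑ z ∈ Z', #(rr B z) ≤ #Z' * b := by
    rw [← smul_eq_mul]
    exact sum_le_card_nsmul _ _ _ (fun z _ => hrb z)
  have hbn : b ≤ n := card_le_univ _
  have hb0 : 0 < b := by omega
  have h3 : b * b ≤ b * (p + (n - b)) := by
    have h4 : #Z' = n - b := by omega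
    rw [h4] at h2
    have h5 : b * (p + (n - b)) = b * p + (n - b) * b := by ring
    omega
  have h4 : b ≤ p + (n - b) := Nat.le_of_mul_le_mul_left h3 hb0
  have h2b : 2 * b = n + p := by omega
  have hZ'c : #Z' = b - p := by omega
  have hfull : ∀ z ∈ Z', #(rr B z) = b := by
    have h5 : ∑ z ∈ Z', #(rr B z) = ∑ z ∈ Z', b := by
      apply le_antisymm
      · exact sum_le_sum fun z _ => hrb z
      · rw [sum_const, smul_eq_mul, hZ'c]
        have h6 : (b - p) * b + b * p = b * b := by
          have h7 : b = (b - p) + p := by omega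
          calc (b - p) * b + b * p = ((b - p) + p) * b := by ring
            _ = b * b := by rw [← h7]
        omega
    exact (sum_eq_sum_iff_of_le fun z _ => hrb z).1 h5
  have hmem : ∀ z ∈ Z', ∀ a ∈ B, z - a ∈ B := by
    intro z hz a ha
    have h5 : rr B z = B := eq_of_subset_of_card_le (filter_subset _ _) (by
      rw [hfull z hz])
    have h6 : a ∈ rr B z := by rw [h5]; exact ha
    exact (mem_filter.1 h6).2
  have hbn' : b ≠ n := by omega
  have hne : Z'.Nonempty := by
    rw [← card_pos]
    omega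
  obtain ⟨z₀, hz₀⟩ := hne
  have hle : #Z' ≤ #(hs (st B)) := by
    apply card_le_card_of_injOn (fun z => z - z₀)
    · intro z hz
      have h5 : z - z₀ ∈ hs (st B) := by
        rw [mem_hs]
        apply mem_st_of_forall
        intro a ha
        have h6 := hmem z hz _ (hmem z₀ hz₀ a ha)
        have h7 : a + (z - z₀) = z - (z₀ - a) := by abel
        rw [h7]
        exact h6
      exact h5
    · intro a _ c _ h
      exact sub_left_injective h
  have hfb : #(hs (st B)) ∣ b := dvd_card_of_per (per_st B)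
  have hfn : #(hs (st B)) ∣ n := by
    have h5 : #(hs (st B)) ∣ #(univ : Finset H) := dvd_card_of_per (fun a _ g _ => mem_univ _)
    rwa [card_univ] at h5
  set f := #(hs (st B)) with hf
  obtain ⟨i, hi⟩ := hfb
  obtain ⟨j, hj⟩ := hfn
  have hf0 : 0 < f := card_hs_pos _
  have hij : i < j := by
    by_contra hcon
    have : f * j ≤ f * i := Nat.mul_le_mul_left _ (by omega)
    omega
  have hj1 : j = i + 1 := by
    by_contra hcon
    have h5 : f * (i + 2) ≤ f * j := Nat.mul_le_mul_left _ (by omega)
    have h6 : f * (i + 2) = f * i + 2 * f := by ring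
    omega
  subst hj1
  have h5 : f * i = f + p := by
    have h6 : f * (i + 1) = f * i + f := by ring
    omega
  have hfp : f ∣ p := by
    have h6 : f ∣ f + p := ⟨i, h5.symm⟩
    exact (Nat.dvd_add_right (dvd_refl f)).1 h6
  rcases (Nat.dvd_prime hpp).1 hfp with h6 | h6
  · rw [h6] at h5 hj
    omega
  · have h7 : i = 2 := by
      rw [h6] at h5
      have h8 : p * i = p * 2 := by omega
      exact Nat.eq_of_mul_eq_mul_left (by omega) h8
    have h8 := hH 3 Nat.prime_three (by
      rw [hj, h7]
      exact dvd_mul_left _ _)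
    omega

end group

section fibre

variable {G : Type u} [AddCommGroup G] [Fintype G] [DecidableEq G]
variable {D : Type v} [AddCommGroup D] [Fintype D] [DecidableEq D]
variable {p : ℕ}

/-- transfer to a fibre -/
theorem DS_fibre {π : G →+ D} {s : D} {B : Finset G} (hB : B ⊆ fib π s) (hne : B.Nonempty)
    {c : ℕ} {x : G} (hx : c • s = π x)
    (h : ∀ (B' : Finset π.ker) (x' : π.ker), #B' = #B → DS B' c x') : DS B c x := by
  classical
  obtain ⟨g, hg⟩ := hne
  have hgs : π g = s := mem_fib.1 (hB hg)
  set B' : Finset π.ker := univ.filter (fun u => (u : G) + g ∈ B) with hB'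
  have hc : #B' = #B := by
    apply card_bij (fun (u : π.ker) _ => (u : G) + g)
    · intro u hu
      exact (mem_filter.1 hu).2
    · intro u _ w _ huw
      exact Subtype.ext (add_right_cancel huw)
    · intro b hb
      refine ⟨⟨b - g, ?_⟩, ?_, ?_⟩
      · rw [AddMonoidHom.mem_ker, map_sub, mem_fib.1 (hB hb), hgs, sub_self]
      · rw [mem_filter]
        refine ⟨mem_univ _, ?_⟩
        simpa using hb
      · simp
  have hxk : x - c • g ∈ π.ker := by
    rw [AddMonoidHom.mem_ker, map_sub, map_nsmul, hgs, hx, sub_self]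
  obtain ⟨T, hT, hTc, hTs⟩ := h B' ⟨x - c • g, hxk⟩ hc
  refine ⟨T.image (fun u : π.ker => (u : G) + g), ?_, ?_, ?_⟩
  · intro a ha
    obtain ⟨u, hu, rfl⟩ := mem_image.1 ha
    exact (mem_filter.1 (hT hu)).2
  · rw [card_image_of_injective _ (fun u w huw => Subtype.ext (add_right_cancel huw)), hTc]
  · rw [sum_image (fun u _ w _ huw => Subtype.ext (add_right_cancel huw)), sum_add_distrib,
      sum_const, hTc]
    have h1 := congrArg (fun u : π.ker => (u : G)) hTs
    simp only [AddSubgroup.val_finsetSum] at h1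
    rw [h1, sub_add_cancel]

theorem card_ker_eq {π : G →+ D} [Fintype π.ker] (s : D) (hs : (fib π s).Nonempty) :
    Fintype.card π.ker = #(fib π s) := by
  classical
  obtain ⟨g, hg⟩ := hs
  rw [← card_univ]
  apply card_bij (fun (u : π.ker) _ => (u : G) + g)
  · intro u _
    rw [mem_fib, map_add, mem_fib.1 hg, AddMonoidHom.mem_ker.1 u.2, zero_add]
  · intro u _ w _ huw
    exact Subtype.ext (add_right_cancel huw)
  · intro b hb
    refine ⟨⟨b - g, ?_⟩, mem_univ _, ?_⟩
    · rw [AddMonoidHom.mem_ker, map_sub, mem_fib.1 hb, mem_fib.1 hg, sub_self]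
    · simp

/-- **fibre lemma**, `2 ≤ c < p` -/
theorem fibre_mid (hp : 5 ≤ p) (hodd : p % 2 = 1) {π : G →+ D} {s : D} {B : Finset G} {h : ℕ}
    (hB : B ⊆ fib π s) (hh : #(fib π s) = h) (hH : ∀ q, q.Prime → q ∣ h → p ≤ q)
    (hBc : h + p ≤ 2 * #B) {c : ℕ} (hc : 2 ≤ c) (hcp : c < p) {x : G} (hx : c • s = π x) :
    DS B c x := by
  classical
  have hne : B.Nonempty := by
    rw [← card_pos]
    omega
  have : Fintype π.ker := Fintype.ofFinite _
  have hk := card_ker_eq (π := π) s (hne.mono hB)
  rw [hh] at hk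
  apply DS_fibre hB hne hx
  intro B' x' hB'
  exact DS_mid hp hodd (by rwa [hk]) (by rw [hk, hB']; exact hBc) hc hcp x'

/-- **fibre lemma**, `c = p` -/
theorem fibre_top (hpp : p.Prime) (hp : 5 ≤ p) {π : G →+ D} {s : D} {B : Finset G} {h : ℕ}
    (hB : B ⊆ fib π s) (hh : #(fib π s) = h) (hH : ∀ q, q.Prime → q ∣ h → p ≤ q)
    (hBc : h + p ≤ 2 * #B) (hn : h ≠ p) (hn2 : h ≠ p + 2) {x : G} (hx : p • s = π x) :
    DS B p x := by
  classical
  have hne : B.Nonempty := by
    rw [← card_pos]
    omega
  have : Fintype π.ker := Fintype.ofFinite _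
  have hk := card_ker_eq (π := π) s (hne.mono hB)
  rw [hh] at hk
  apply DS_fibre hB hne hx
  intro B' x' hB'
  exact DS_top hpp hp (by rwa [hk]) (by rw [hk, hB']; exact hBc) (by rwa [hk]) (by rwa [hk]) x'

end fibre

end Pool.Agent.Lib.MPa7239a.TP
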