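import Pool.Agent.Lib.MP_a7239a_co.TP.Tight

/-!
# Sums of two distinct elements

`tw B` is the set of sums of two distinct elements of `B`. In a group of odd order: if `tw B` is
aperiodic and `|B| ≥ 2`, then `3 |B| ≤ 2 |tw B| + 4`; if the union of the cosets of `H` meeting
`tw B` has stabilizer `H` and `B` has at most `α ≥ 2` elements in every coset of `H`, then
`2 |H| |B| ≤ α (|tw B + H| + |H|)`.
-/

open scoped Pointwise
open Finset

set_option linter.unusedSectionVars false

namespace Pool.Agent.Lib.MPa7239a.TP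

open Pool.Agent.Lib.MPa7239a.Q3

universe u v

variable {G : Type u} [AddCommGroup G] [Fintype G] [DecidableEq G]

/-- sums of two distinct elements -/
def tw (B : Finset G) : Finset G := B.offDiag.image (fun z => z.1 + z.2)

theorem mem_tw {B : Finset G} {t : G} : t ∈ tw B ↔ ∃ a ∈ B, ∃ b ∈ B, a ≠ b ∧ a + b = t := by
  rw [tw, mem_image]
  constructor
  · rintro ⟨z, hz, rfl⟩
    rw [mem_offDiag] at hz
    exact ⟨z.1, hz.1, z.2, hz.2.1, hz.2.2, rfl⟩
  · rintro ⟨a, ha, b, hb, hab, rfl⟩
    exact ⟨(a, b), mem_offDiag.2 ⟨ha, hb, hab⟩, rfl⟩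

theorem tw_nonempty {B : Finset G} (hB : 2 ≤ #B) : (tw B).Nonempty := by
  obtain ⟨a, ha, b, hb, hab⟩ := one_lt_card.1 (show 1 < #B by omega)
  exact ⟨a + b, mem_tw.2 ⟨a, ha, b, hb, hab, rfl⟩⟩

/-- `B ∩ (B + g)` -/
def sh (B : Finset G) (g : G) : Finset G := B.filter (fun y => y - g ∈ B)

theorem mem_sh {B : Finset G} {g y : G} : y ∈ sh B g ↔ y ∈ B ∧ y - g ∈ B := by
  rw [sh, mem_filter]

/-- two translates inside `tw B` -/
theorem sh_ge {B : Finset G} {b b' : G} (hb : b ∈ B) (hb' : b' ∈ B) :
    2 * #B ≤ #(tw B) + #(sh B (b' - b)) + 2 := by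
  set X := (B.erase b).image (fun y => b + y) with hX
  set Y := (B.erase b').image (fun y => b' + y) with hY
  have hXc : #X = #B - 1 := by
    rw [hX, card_image_of_injective _ (add_right_injective b), card_erase_of_mem hb]
  have hYc : #Y = #B - 1 := by
    rw [hY, card_image_of_injective _ (add_right_injective b'), card_erase_of_mem hb']
  have hU : X ∪ Y ⊆ tw B := by
    intro t ht
    rw [mem_union, hX, hY, mem_image, mem_image] at ht
    rcases ht with ⟨y, hy, rfl⟩ | ⟨y, hy, rfl⟩
    · rw [mem_erase] at hy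
      exact mem_tw.2 ⟨b, hb, y, hy.2, hy.1.symm, rfl⟩
    · rw [mem_erase] at hy
      exact mem_tw.2 ⟨b', hb', y, hy.2, hy.1.symm, rfl⟩
  have hI : #(X ∩ Y) ≤ #(sh B (b' - b)) := by
    apply card_le_card_of_injOn (fun t => t - b)
    · intro t ht
      rw [mem_coe, mem_inter, hX, hY, mem_image, mem_image] at ht
      obtain ⟨⟨y, hy, hyt⟩, ⟨z, hz, hzt⟩⟩ := ht
      rw [mem_erase] at hy hz
      rw [mem_coe, mem_sh]
      have h1 : t - b = y := by rw [← hyt]; abel
      have h2 : t - b - (b' - b) = z := by rw [← hzt]; abel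
      refine ⟨?_, ?_⟩
      · show t - b ∈ B
        rw [h1]
        exact hy.2
      · show t - b - (b' - b) ∈ B
        rw [h2]
        exact hz.2
    · intro s _ t _ hst
      simpa using hst
  have h1 := card_union_add_card_inter X Y
  have h2 := card_le_card hU
  have h3 : 1 ≤ #B := card_pos.2 ⟨b, hb⟩
  omega

theorem sum_sh (B : Finset G) : ∑ g, #(sh B g) = #B * #B := by
  have h1 : ∀ g, #(sh B g) = ∑ y ∈ B, if y - g ∈ B then 1 else 0 := fun g => by
    rw [sh, card_filter]
  rw [sum_congr rfl fun g _ => h1 g, sum_comm]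
  have h2 : ∀ y ∈ B, (∑ g, if y - g ∈ B then 1 else 0) = #B := by
    intro y _
    rw [← card_filter]
    apply card_bij (fun g _ => y - g)
    · intro g hg
      exact (mem_filter.1 hg).2
    · intro g _ g' _ h
      simpa using h
    · intro b hb
      exact ⟨y - b, mem_filter.2 ⟨mem_univ _, by rwa [sub_sub_cancel]⟩, by abel⟩
  rw [sum_congr rfl h2, sum_const, smul_eq_mul]

/-- **Lemma A** -/
theorem tw_aperiodic (hodd : ∀ g : G, g + g = 0 → g = 0) {B : Finset G} (hB : 2 ≤ #B)
    (hst : #(hs (st (tw B))) = 1) : 3 * #B ≤ 2 * #(tw B) + 4 := by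
  by_contra hcon
  push Not at hcon
  have hbig : ∀ b ∈ B, ∀ b' ∈ B, #B + 1 ≤ 2 * #(sh B (b' - b)) := by
    intro b hb b' hb'
    by_cases h : b = b'
    · subst h
      have : sh B (b - b) = B := by
        ext y
        rw [mem_sh, sub_self, sub_zero, and_self]
      rw [this]
      omega
    · have := sh_ge hb hb'
      omega
  -- `B - B` is a subgroup
  obtain ⟨b₀, hb₀⟩ := card_pos.1 (show 0 < #B by omega)
  have hsub : ∀ g h, (∃ b ∈ B, ∃ b' ∈ B, g = b' - b) → (∃ b ∈ B, ∃ b' ∈ B, h = b' - b) →
      ∃ b ∈ B, ∃ b' ∈ B, g - h = b' - b := by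
    rintro g h ⟨b, hb, b', hb', rfl⟩ ⟨c, hc, c', hc', rfl⟩
    have h1 := hbig b hb b' hb'
    have h2 := hbig c hc c' hc'
    have h3 : (sh B (b' - b) ∩ sh B (c' - c)).Nonempty := by
      rw [← card_pos]
      have h4 := card_union_add_card_inter (sh B (b' - b)) (sh B (c' - c))
      have h5 : #(sh B (b' - b) ∪ sh B (c' - c)) ≤ #B := by
        apply card_le_card
        intro y hy
        rw [mem_union, mem_sh, mem_sh] at hy
        rcases hy with hy | hy
        · exact hy.1
        · exact hy.1
      omega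
    obtain ⟨y, hy⟩ := h3
    rw [mem_inter, mem_sh, mem_sh] at hy
    exact ⟨_, hy.1.2, _, hy.2.2, by abel⟩
  have hzero : ∃ b ∈ B, ∃ b' ∈ B, (0 : G) = b' - b := ⟨b₀, hb₀, b₀, hb₀, by abel⟩
  let K : AddSubgroup G :=
    { carrier := {g | ∃ b ∈ B, ∃ b' ∈ B, g = b' - b}
      zero_mem' := hzero
      add_mem' := by
        intro g h hg hh
        have h1 := hsub 0 h hzero hh
        have h2 := hsub g (0 - h) hg h1
        rwa [show g - (0 - h) = g + h by abel] at h2
      neg_mem' := by
        intro g hg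
        have h1 := hsub 0 g hzero hg
        rwa [zero_sub] at h1 }
  have hK : ∀ g, g ∈ K ↔ ∃ b ∈ B, ∃ b' ∈ B, g = b' - b := fun g => Iff.rfl
  -- the order of `K`
  have hKc : #(hs K) + 2 ≤ 2 * #B := by
    have h1 : ∑ g ∈ hs K, #(sh B g) ≤ #B * #B := by
      rw [← sum_sh]
      exact sum_le_sum_of_subset (subset_univ _)
    have h0 : (0 : G) ∈ hs K := mem_hs.2 K.zero_mem
    rw [← add_sum_erase _ _ h0] at h1
    have h2 : sh B 0 = B := by
      ext y
      rw [mem_sh, sub_zero, and_self]
    rw [h2] at h1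
    have h3 : #((hs K).erase 0) * (#B + 1) ≤ ∑ g ∈ (hs K).erase 0, 2 * #(sh B g) := by
      rw [← smul_eq_mul]
      apply card_nsmul_le_sum
      intro g hg
      rw [mem_erase, mem_hs, hK] at hg
      obtain ⟨b, hb, b', hb', rfl⟩ := hg.2
      exact hbig b hb b' hb'
    rw [← mul_sum, card_erase_of_mem h0] at h3
    have h4 := card_hs_pos K
    by_contra hc
    push Not at hc
    obtain ⟨k, hk⟩ : ∃ k, #(hs K) = k + 1 := ⟨#(hs K) - 1, by omega⟩
    rw [hk, Nat.add_sub_cancel] at h3
    obtain ⟨m, hm⟩ : ∃ m, #B = m + 2 := ⟨#B - 2, by omega⟩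
    rw [hm] at h1 h3 hc
    have hkm : 2 * m + 2 ≤ k := by omega
    have h5 : (2 * m + 2) * (m + 2 + 1) ≤ k * (m + 2 + 1) := Nat.mul_le_mul_right _ hkm
    nlinarith
  -- `tw B` is periodic
  obtain ⟨b₁, hb₁, hb01⟩ : ∃ b₁ ∈ B, b₁ ≠ b₀ := by
    obtain ⟨a, ha, b, hb, hab⟩ := one_lt_card.1 (show 1 < #B by omega)
    by_cases h : a = b₀
    · exact ⟨b, hb, fun h' => hab (by rw [h, h'])⟩
    · exact ⟨a, ha, h⟩
  have hper : ∀ t ∈ tw B, ∀ g ∈ K, t + g ∈ tw B := by
    intro t ht g hg
    obtain ⟨a, ha, b, hb, _, rfl⟩ := mem_tw.1 ht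
    set z := a + b + g with hz
    set X := B.image (fun y => z - y) with hX
    have hXc : #X = #B := card_image_of_injective _ sub_right_injective
    have hU : B ∪ X ⊆ cs K b₀ := by
      intro y hy
      rw [mem_union, hX, mem_image] at hy
      rw [mem_cs]
      rcases hy with hy | ⟨y', hy', rfl⟩
      · exact (hK _).2 ⟨b₀, hb₀, y, hy, rfl⟩
      · have h1 : a - b₀ ∈ K := (hK _).2 ⟨b₀, hb₀, a, ha, rfl⟩
        have h2 : b - y' ∈ K := (hK _).2 ⟨y', hy', b, hb, rfl⟩
        have h3 : z - y' - b₀ = (a - b₀) + (b - y') + g := by rw [hz]; abel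
        rw [h3]
        exact K.add_mem (K.add_mem h1 h2) hg
    have h1 := card_union_add_card_inter B X
    have h2 := card_le_card hU
    rw [card_cs] at h2
    have h3 : 1 < #(B ∩ X) := by omega
    obtain ⟨y, hy, y', hy', hyy⟩ := one_lt_card.1 h3
    have key : ∀ y ∈ B ∩ X, z - y ≠ y → z ∈ tw B := by
      intro y hy hne
      rw [mem_inter, hX, mem_image] at hy
      obtain ⟨hyB, w, hw, hwy⟩ := hy
      have : z - y = w := by rw [← hwy]; abel
      rw [this] at hne
      exact mem_tw.2 ⟨y, hyB, w, hw, hne.symm, by rw [← this]; abel⟩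
    by_cases h4 : z - y = y
    · apply key y' hy'
      intro h5
      apply hyy
      have h6 : (y - y') + (y - y') = 0 := by
        have h7 : z = y + y := by
          calc z = (z - y) + y := by abel
            _ = y + y := by rw [h4]
        have h8 : z = y' + y' := by
          calc z = (z - y') + y' := by abel
            _ = y' + y' := by rw [h5]
        calc (y - y') + (y - y') = (y + y) - (y' + y') := by abel
          _ = 0 := by rw [← h7, ← h8, sub_self]
      exact sub_eq_zero.1 (hodd _ h6)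
    · exact key y hy h4
  have hKst : K ≤ st (tw B) := le_st_of_per hper
  have h1 : b₁ - b₀ ∈ hs (st (tw B)) := mem_hs.2 (hKst ((hK _).2 ⟨b₀, hb₀, b₁, hb₁, rfl⟩))
  have h2 : (0 : G) ∈ hs (st (tw B)) := mem_hs.2 (AddSubgroup.zero_mem _)
  exact hb01 (sub_eq_zero.1 (card_le_one.1 (le_of_eq hst) _ h1 _ h2))

/-- sets with few elements in every coset -/
theorem card_mul_le {H : AddSubgroup G} {B : Finset G} {α : ℕ}
    (hα : ∀ g, #(B ∩ cs H g) ≤ α) : #(hs H) * #B ≤ α * #(cl H B) := by
  classical
  -- pairs `(b, y)` with `y - b ∈ H`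
  set P := (B ×ˢ cl H B).filter (fun z => z.1 - z.2 ∈ H) with hP
  have h1 : #P = ∑ b ∈ B, #(hs H) := by
    rw [hP, card_filter, sum_product]
    refine sum_congr rfl fun b hb => ?_
    rw [← card_filter, ← card_cs H b]
    congr 1
    ext y
    rw [mem_filter, mem_cs, mem_cl]
    constructor
    · rintro ⟨_, h⟩
      have := H.neg_mem h
      rwa [neg_sub] at this
    · intro h
      refine ⟨⟨b, hb, h⟩, ?_⟩
      have := H.neg_mem h
      rwa [neg_sub] at this
  have h2 : #P ≤ ∑ _y ∈ cl H B, α := by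
    rw [hP, card_filter, sum_product_right]
    refine sum_le_sum fun y _ => ?_
    rw [← card_filter]
    refine le_trans (card_le_card ?_) (hα y)
    intro b hb
    rw [mem_filter] at hb
    rw [mem_inter, mem_cs]
    exact hb
  rw [h1, sum_const, sum_const, smul_eq_mul, smul_eq_mul] at h2
  rw [mul_comm, mul_comm α]
  exact h2

theorem card_cl_le (H : AddSubgroup G) (B : Finset G) : #(cl H B) ≤ #B * #(hs H) :=
  card_add_le

/-- the bound for `tw B` modulo a subgroup -/
theorem tw_cl {H : AddSubgroup G} {B : Finset G} {α : ℕ}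
    (h2α : 2 ≤ α) (hα : ∀ g, #(B ∩ cs H g) ≤ α) (hB : B.Nonempty)
    (hH : ∀ g, g + g ∈ H → g ∈ H)
    (hst : st (cl H (tw B)) = H) : 2 * #(hs H) * #B ≤ α * (#(cl H (tw B)) + #(hs H)) := by
  classical
  set T := cl H (tw B) with hT
  set U := cl H B with hU
  have hTper : Per H T := per_cl _ _
  have hUper : Per H U := per_cl _ _
  set S := B.filter (fun b => ∀ b' ∈ B, b' - b ∈ H → b' = b) with hS
  have hSB : S ⊆ B := filter_subset _ _
  -- elements in the same class
  have hTU : T ⊆ U + U := by
    intro t ht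
    rw [hT, mem_cl] at ht
    obtain ⟨s, hs', hts⟩ := ht
    obtain ⟨a, ha, b, hb, _, rfl⟩ := mem_tw.1 hs'
    rw [Finset.mem_add]
    refine ⟨a, subset_cl H B ha, t - a, ?_, by abel⟩
    rw [hU, mem_cl]
    exact ⟨b, hb, by rwa [show t - a - b = t - (a + b) by abel]⟩
  have hUT : ∀ b ∈ B, b ∉ S → b + b ∈ T := by
    intro b hb hbS
    rw [hS, mem_filter, not_and] at hbS
    have := hbS hb
    push Not at this
    obtain ⟨b', hb', hbb, hne⟩ := this
    rw [hT, mem_cl]
    refine ⟨b + b', mem_tw.2 ⟨b, hb, b', hb', hne.symm, rfl⟩, ?_⟩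
    have := H.neg_mem hbb
    rwa [show -(b' - b) = b + b - (b + b') by abel] at this
  have hUU : U + U ⊆ T ∪ cl H (S.image (fun b => b + b)) := by
    intro t ht
    rw [Finset.mem_add] at ht
    obtain ⟨y, hy, z, hz, rfl⟩ := ht
    rw [hU, mem_cl] at hy hz
    obtain ⟨b, hb, hyb⟩ := hy
    obtain ⟨b', hb', hzb⟩ := hz
    have hsum : y + z - (b + b') ∈ H := by
      rw [show y + z - (b + b') = (y - b) + (z - b') by abel]
      exact H.add_mem hyb hzb
    rw [mem_union]
    by_cases h : b = b'
    · subst h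
      by_cases hbS : b ∈ S
      · right
        rw [mem_cl]
        exact ⟨b + b, mem_image_of_mem _ hbS, hsum⟩
      · left
        have h1 := hTper _ (hUT b hb hbS) _ hsum
        rwa [show b + b + (y + z - (b + b)) = y + z by abel] at h1
    · left
      rw [hT, mem_cl]
      exact ⟨b + b', mem_tw.2 ⟨b, hb, b', hb', h, rfl⟩, hsum⟩
  -- `|U + U| ≥ 2 |U| - |H|`
  have hUne : U.Nonempty := by
    obtain ⟨b, hb⟩ := hB
    exact ⟨b, subset_cl H B hb⟩
  have hmain : 2 * #U ≤ #(U + U) + #(hs H) := by
    have hkn := kneser hUne hUne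
    set K := st (U + U) with hK
    by_cases hcase : U + U ⊆ T
    · have h1 : U + U = T := Subset.antisymm hcase hTU
      have h2 : K = H := by rw [hK, h1, hst]
      rw [h2] at hkn
      have h3 := card_le_card (subset_cl H U)
      omega
    · rw [not_subset] at hcase
      obtain ⟨t, ht, htT⟩ := hcase
      have h1 := hUU ht
      rw [mem_union] at h1
      rcases h1 with h1 | h1
      · exact absurd h1 htT
      rw [mem_cl] at h1
      obtain ⟨s, hs', hts⟩ := h1
      rw [mem_image] at hs'
      obtain ⟨b₀, hb₀, rfl⟩ := hs'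
      have hb₀B := hSB hb₀
      have hbT : b₀ + b₀ ∉ T := by
        intro h
        apply htT
        have := hTper _ h _ hts
        rwa [show b₀ + b₀ + (t - (b₀ + b₀)) = t by abel] at this
      have hHK : H ≤ K := le_st_of_per (hUper.add_left U)
      have hno : ∀ k, k ∉ H → b₀ + k ∈ U → b₀ - k ∉ U := by
        intro k hk h1 h2
        rw [hU, mem_cl] at h1 h2
        obtain ⟨b₁, hb₁, h1⟩ := h1
        obtain ⟨b₂, hb₂, h2⟩ := h2
        by_cases h : b₁ = b₂
        · subst h
          apply hk
          have h3 : (b₀ - b₁) + (b₀ - b₁) ∈ H := by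
            have := H.add_mem h1 h2
            rwa [show b₀ + k - b₁ + (b₀ - k - b₁) = (b₀ - b₁) + (b₀ - b₁) by abel] at this
          have h4 := hH _ h3
          have := H.sub_mem h1 h4
          rwa [show b₀ + k - b₁ - (b₀ - b₁) = k by abel] at this
        · apply hbT
          rw [hT, mem_cl]
          refine ⟨b₁ + b₂, mem_tw.2 ⟨b₁, hb₁, b₂, hb₂, h, rfl⟩, ?_⟩
          have := H.add_mem h1 h2
          rwa [show b₀ + k - b₁ + (b₀ - k - b₂) = b₀ + b₀ - (b₁ + b₂) by abel] at this
      set W := (hs K).filter (fun k => k ∉ H) with hW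
      set V := W.filter (fun k => b₀ + k ∉ U) with hV
      have hWV : #W ≤ 2 * #V := by
        have h1 : #(W.filter (fun k => ¬ (b₀ + k ∉ U))) ≤ #V := by
          apply card_le_card_of_injOn (fun k => -k)
          · intro k hk
            rw [mem_coe, mem_filter, hW, mem_filter, mem_hs, not_not] at hk
            rw [mem_coe, hV, mem_filter, hW, mem_filter, mem_hs]
            refine ⟨⟨K.neg_mem hk.1.1, fun h => hk.1.2 (by
              have := H.neg_mem h
              rwa [neg_neg] at this)⟩, ?_⟩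
            rw [← sub_eq_add_neg]
            exact hno k hk.1.2 hk.2
          · intro a _ b _ hab
            exact neg_injective hab
        have h2 := card_filter_add_card_filter_not (s := W) (fun k => b₀ + k ∉ U)
        rw [← hV] at h2
        omega
      have hWc : #(hs K) ≤ #W + #(hs H) := by
        have h2 := card_filter_add_card_filter_not (s := hs K) (fun k => k ∉ H)
        rw [← hW] at h2
        have h3 : #((hs K).filter (fun k => ¬ (k ∉ H))) ≤ #(hs H) := by
          apply card_le_card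
          intro k hk
          rw [mem_filter, not_not] at hk
          exact mem_hs.2 hk.2
        omega
      have hcl : #U + #V ≤ #(cl K U) := by
        have h1 : #(V.image (fun k => b₀ + k)) = #V :=
          card_image_of_injective _ (add_right_injective b₀)
        rw [← h1, ← card_union_of_disjoint]
        · apply card_le_card
          intro y hy
          rw [mem_union, mem_image] at hy
          rcases hy with hy | ⟨k, hk, rfl⟩
          · exact subset_cl K U hy
          · rw [hV, mem_filter, hW, mem_filter, mem_hs] at hk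
            rw [mem_cl]
            exact ⟨b₀, subset_cl H B hb₀B, by rw [add_sub_cancel_left]; exact hk.1.1⟩
        · rw [Finset.disjoint_left]
          intro y hy hy'
          rw [mem_image] at hy'
          obtain ⟨k, hk, rfl⟩ := hy'
          rw [hV, mem_filter] at hk
          exact hk.2 hy
      omega
  -- the number of elements of `U + U`
  have hcard : #(U + U) ≤ #T + #S * #(hs H) := by
    refine le_trans (card_le_card hUU) (le_trans (card_union_le _ _) ?_)
    have h1 := card_cl_le H (S.image (fun b => b + b))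
    have h2 : #(S.image (fun b => b + b)) ≤ #S := card_image_le
    have h3 := Nat.mul_le_mul_right (#(hs H)) h2
    omega
  -- splitting `U`
  have hSB' : #(B \ S) + #S = #B := card_sdiff_add_card_eq_card hSB
  have hdis : Disjoint (cl H S) (cl H (B \ S)) := by
    rw [Finset.disjoint_left]
    intro y hy hy'
    rw [mem_cl] at hy hy'
    obtain ⟨b, hb, h1⟩ := hy
    obtain ⟨b', hb', h2⟩ := hy'
    rw [mem_sdiff] at hb'
    have h3 : b' - b ∈ H := by
      have := H.sub_mem h1 h2
      rwa [show y - b - (y - b') = b' - b by abel] at this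
    have h4 := (mem_filter.1 hb).2 b' hb'.1 h3
    rw [h4] at hb'
    exact hb'.2 hb
  have hUsplit : #(cl H S) + #(cl H (B \ S)) ≤ #U := by
    rw [← card_union_of_disjoint hdis]
    apply card_le_card
    apply union_subset
    · exact cl_mono hSB
    · exact cl_mono sdiff_subset
  have hS1 : #(hs H) * #S ≤ 1 * #(cl H S) := by
    apply card_mul_le
    intro g
    rw [card_le_one]
    intro a ha b hb
    rw [mem_inter, mem_cs] at ha hb
    have h3 : b - a ∈ H := by
      have := H.sub_mem hb.2 ha.2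
      rwa [show b - g - (a - g) = b - a by abel] at this
    exact ((mem_filter.1 ha.1).2 b (hSB hb.1) h3).symm
  have hS2 : #(hs H) * #(B \ S) ≤ α * #(cl H (B \ S)) := by
    apply card_mul_le
    intro g
    exact le_trans (card_le_card (inter_subset_inter_right sdiff_subset)) (hα g)
  rw [one_mul] at hS1
  have h5 : 2 * #(cl H (B \ S)) + #S * #(hs H) ≤ #T + #(hs H) := by
    rw [mul_comm] at hS1
    have := hS1
    nlinarith
  have h6 : α * (2 * #(cl H (B \ S)) + #S * #(hs H)) ≤ α * (#T + #(hs H)) :=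
    Nat.mul_le_mul_left _ h5
  have h7 : 2 * (#S * #(hs H)) ≤ α * (#S * #(hs H)) := Nat.mul_le_mul_right _ h2α
  have h8 : 2 * #(hs H) * #B = 2 * (#(hs H) * #(B \ S)) + 2 * (#S * #(hs H)) := by
    rw [← hSB']
    ring
  have h9 : α * (2 * #(cl H (B \ S)) + #S * #(hs H)) =
      2 * (α * #(cl H (B \ S))) + α * (#S * #(hs H)) := by ring
  omega

end Pool.Agent.Lib.MPa7239a.TP
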