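import Pool.Agent.Lib.MP_a7239a_co.TP.Fibre

/-!
# Lifting representations from a quotient
-/

open scoped Pointwise
open Finset

set_option linter.unusedSectionVars false

namespace Pool.Agent.Lib.MPa7239a.TP

open Pool.Agent.Lib.MPa7239a.Q3

universe u v

section caps

variable {D : Type v} [AddCommGroup D] [Fintype D] [DecidableEq D]

/-- a sum of sets as a function `c` with capacities -/
theorem cap_list : ∀ (L : List (Finset D)) (y : D), y ∈ L.sum →
    ∃ c : D → ℕ, (∑ q, c q = L.length) ∧ (∑ q, c q • q = y) ∧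
      ∀ q, c q ≤ (L.map (fun X => if q ∈ X then 1 else 0)).sum := by
  intro L
  induction L with
  | nil =>
    intro y hy
    rw [List.sum_nil, Finset.mem_zero] at hy
    refine ⟨fun _ => 0, by simp, by simp [hy], fun q => by simp⟩
  | cons X L ih =>
    intro y hy
    rw [List.sum_cons, Finset.mem_add] at hy
    obtain ⟨a, ha, b, hb, rfl⟩ := hy
    obtain ⟨c, h1, h2, h3⟩ := ih b hb
    refine ⟨fun q => c q + if q = a then 1 else 0, ?_, ?_, ?_⟩
    · rw [sum_add_distrib, h1, sum_ite_eq' univ a, if_pos (mem_univ _), List.length_cons]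
    · simp_rw [add_nsmul]
      rw [sum_add_distrib, h2]
      simp only [ite_smul, one_smul, zero_smul]
      rw [sum_ite_eq' univ a, if_pos (mem_univ _), add_comm]
    · intro q
      rw [List.map_cons, List.sum_cons]
      have h4 := h3 q
      show c q + (if q = a then 1 else 0) ≤ _
      by_cases hq : q = a
      · subst hq
        rw [if_pos rfl, if_pos ha]
        omega
      · rw [if_neg hq]
        omega

end caps

section lift

variable {G : Type u} [AddCommGroup G] [Fintype G] [DecidableEq G]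
variable {D : Type v} [AddCommGroup D] [Fintype D] [DecidableEq D]

/-- lifting a representation: the classes outside `Q₀` are filled arbitrarily, the ones in `Q₀`
give the right sum -/
theorem lift {π : G →+ D} {A : Finset G} {x : G} {c : D → ℕ} (Q₀ : Finset D)
    (hc : ∀ q, q ∉ Q₀ → c q ≤ #(part π A q)) (hy : ∑ q, c q • q = π x)
    (h0 : ∀ z, π z = ∑ q ∈ Q₀, c q • q →
      DS (A.filter (fun a => π a ∈ Q₀)) (∑ q ∈ Q₀, c q) z) :
    DS A (∑ q, c q) x := by
  classical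
  have hex : ∀ q, ∃ T ⊆ part π A q, q ∉ Q₀ → #T = c q := by
    intro q
    by_cases hq : q ∈ Q₀
    · exact ⟨∅, empty_subset _, fun h => absurd hq h⟩
    · obtain ⟨T, hT, hTc⟩ := exists_subset_card_eq (hc q hq)
      exact ⟨T, hT, fun _ => hTc⟩
  choose T hT hTc using hex
  have hTm : ∀ q, ∀ a ∈ T q, a ∈ A ∧ π a = q := fun q a ha => mem_part.1 (hT q ha)
  have hdisj : ∀ q ∈ univ \ Q₀, ∀ q' ∈ univ \ Q₀, q ≠ q' → Disjoint (T q) (T q') := by
    intro q _ q' _ hqq
    rw [Finset.disjoint_left]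
    intro a ha ha'
    exact hqq ((hTm q a ha).2.symm.trans (hTm q' a ha').2)
  set U := (univ \ Q₀).biUnion T with hU
  have hUs : π (∑ a ∈ U, a) = ∑ q ∈ univ \ Q₀, c q • q := by
    rw [hU, sum_biUnion hdisj, map_sum]
    refine sum_congr rfl fun q hq => ?_
    rw [map_sum, sum_congr rfl (fun a ha => (hTm q a ha).2), sum_const,
      hTc q (mem_sdiff.1 hq).2]
  have hUc : #U = ∑ q ∈ univ \ Q₀, c q := by
    rw [hU, card_biUnion hdisj]
    exact sum_congr rfl fun q hq => hTc q (mem_sdiff.1 hq).2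
  have hsplit : ∑ q ∈ univ \ Q₀, c q • q + ∑ q ∈ Q₀, c q • q = ∑ q, c q • q :=
    sum_sdiff (subset_univ _)
  have hsplit' : ∑ q ∈ univ \ Q₀, c q + ∑ q ∈ Q₀, c q = ∑ q, c q := sum_sdiff (subset_univ _)
  obtain ⟨V, hV, hVc, hVs⟩ := h0 (x - ∑ a ∈ U, a) (by
    rw [map_sub, hUs, ← hy, ← hsplit, add_sub_cancel_left])
  have hUV : Disjoint U V := by
    rw [Finset.disjoint_left]
    intro a ha ha'
    rw [hU, mem_biUnion] at ha
    obtain ⟨q, hq, haq⟩ := ha
    have h1 := (mem_filter.1 (hV ha')).2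
    rw [(hTm q a haq).2] at h1
    exact (mem_sdiff.1 hq).2 h1
  refine ⟨U ∪ V, ?_, ?_, ?_⟩
  · intro a ha
    rw [mem_union] at ha
    rcases ha with ha | ha
    · rw [hU, mem_biUnion] at ha
      obtain ⟨q, _, haq⟩ := ha
      exact (hTm q a haq).1
    · exact (mem_filter.1 (hV ha)).1
  · rw [card_union_of_disjoint hUV, hUc, hVc, hsplit']
  · rw [sum_union hUV, hVs, add_sub_cancel]

/-- two sets in fibres with together more than `h` elements -/
theorem pair_meet {π : G →+ D} {q₁ q₂ : D} {B₁ B₂ : Finset G} {h : ℕ} (h₁ : B₁ ⊆ fib π q₁)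
    (h₂ : B₂ ⊆ fib π q₂) (hh : #(fib π q₂) = h) (hc : h < #B₁ + #B₂) {z : G}
    (hz : π z = q₁ + q₂) : ∃ a ∈ B₁, ∃ b ∈ B₂, a + b = z := by
  classical
  have h3 : #(B₁.image (fun a => z - a)) = #B₁ := card_image_of_injective _ sub_right_injective
  have h4 : B₁.image (fun a => z - a) ∪ B₂ ⊆ fib π q₂ := by
    intro g hg
    rw [mem_union, mem_image] at hg
    rcases hg with ⟨a, ha, rfl⟩ | hg
    · rw [mem_fib, map_sub, mem_fib.1 (h₁ ha), hz, add_sub_cancel_left]
    · exact h₂ hg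
  have h5 := card_le_card h4
  have h6 := card_union_add_card_inter (B₁.image (fun a => z - a)) B₂
  have h7 : (B₁.image (fun a => z - a) ∩ B₂).Nonempty := by
    rw [← card_pos]
    omega
  obtain ⟨g, hg⟩ := h7
  rw [mem_inter, mem_image] at hg
  obtain ⟨⟨a, ha, rfl⟩, hg⟩ := hg
  exact ⟨a, ha, _, hg, add_sub_cancel a z⟩

/-- sums over two classes -/
theorem pair_DS {π : G →+ D} {q₁ q₂ : D} (hq : q₁ ≠ q₂) {B₁ B₂ : Finset G} {h c₁ c₂ : ℕ}
    (h₁ : B₁ ⊆ fib π q₁) (h₂ : B₂ ⊆ fib π q₂) (hh : #(fib π q₂) = h) (hc₁ : 1 ≤ c₁)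
    (hc₂ : 1 ≤ c₂) (hc₁' : c₁ ≤ #B₁ + 1) (hc₂' : c₂ ≤ #B₂ + 1) (hc : h + c₁ + c₂ < #B₁ + #B₂ + 2)
    {z : G} (hz : π z = c₁ • q₁ + c₂ • q₂) : DS (B₁ ∪ B₂) (c₁ + c₂) z := by
  classical
  obtain ⟨d₁, rfl⟩ : ∃ d, c₁ = d + 1 := ⟨c₁ - 1, by omega⟩
  obtain ⟨d₂, rfl⟩ : ∃ d, c₂ = d + 1 := ⟨c₂ - 1, by omega⟩
  obtain ⟨T₁, hT₁, hT₁c⟩ := exists_subset_card_eq (show d₁ ≤ #B₁ by omega)
  obtain ⟨T₂, hT₂, hT₂c⟩ := exists_subset_card_eq (show d₂ ≤ #B₂ by omega)
  have e₁ : #(B₁ \ T₁) = #B₁ - d₁ := by rw [card_sdiff_of_subset hT₁, hT₁c]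
  have e₂ : #(B₂ \ T₂) = #B₂ - d₂ := by rw [card_sdiff_of_subset hT₂, hT₂c]
  have s₁ : π (∑ a ∈ T₁, a) = d₁ • q₁ := by
    rw [map_sum, sum_congr rfl (fun a ha => mem_fib.1 (h₁ (hT₁ ha))), sum_const, hT₁c]
  have s₂ : π (∑ a ∈ T₂, a) = d₂ • q₂ := by
    rw [map_sum, sum_congr rfl (fun a ha => mem_fib.1 (h₂ (hT₂ ha))), sum_const, hT₂c]
  obtain ⟨a, ha, b, hb, hab⟩ := pair_meet (π := π) (q₁ := q₁) (q₂ := q₂) (B₁ := B₁ \ T₁)
    (B₂ := B₂ \ T₂) (h := h) (sdiff_subset.trans h₁) (sdiff_subset.trans h₂) hh (by omega)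
    (z := z - ∑ a ∈ T₁, a - ∑ a ∈ T₂, a) (by
      rw [map_sub, map_sub, s₁, s₂, hz, add_nsmul, add_nsmul, one_nsmul, one_nsmul]
      abel)
  rw [mem_sdiff] at ha hb
  have hBB : Disjoint B₁ B₂ := by
    rw [Finset.disjoint_left]
    intro g hg hg'
    exact hq ((mem_fib.1 (h₁ hg)).symm.trans (mem_fib.1 (h₂ hg')))
  have hd : Disjoint (insert a T₁) (insert b T₂) := by
    refine Disjoint.mono ?_ ?_ hBB
    · exact insert_subset ha.1 hT₁
    · exact insert_subset hb.1 hT₂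
  refine ⟨insert a T₁ ∪ insert b T₂, ?_, ?_, ?_⟩
  · exact union_subset_union (insert_subset ha.1 hT₁) (insert_subset hb.1 hT₂)
  · rw [card_union_of_disjoint hd, card_insert_of_notMem ha.2, card_insert_of_notMem hb.2, hT₁c,
      hT₂c]
  · rw [sum_union hd, sum_insert ha.2, sum_insert hb.2]
    have : z = (a + b) + ∑ a ∈ T₁, a + ∑ a ∈ T₂, a := by
      rw [hab]
      abel
    rw [this]
    abel

end lift

section thresholds

variable {D : Type v} [Fintype D] [DecidableEq D]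

/-- the classes of weight at least `t` -/
def thr (a : D → ℕ) (t : ℕ) : Finset D := univ.filter (fun q => t ≤ a q)

theorem mem_thr {a : D → ℕ} {t : ℕ} {q : D} : q ∈ thr a t ↔ t ≤ a q := by simp [thr]

theorem thr_anti (a : D → ℕ) {s t : ℕ} (h : s ≤ t) : thr a t ⊆ thr a s := by
  intro q hq
  rw [mem_thr] at hq ⊢
  omega

/-- `∑ min(a, n)` -/
theorem sum_thr_low (a : D → ℕ) (n : ℕ) :
    ∑ i ∈ range n, #(thr a (i + 1)) = ∑ q, min (a q) n := by
  simp_rw [thr, card_filter]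
  rw [sum_comm]
  refine sum_congr rfl fun q _ => ?_
  rw [← card_filter]
  have : (range n).filter (fun i => i + 1 ≤ a q) = range (min (a q) n) := by
    ext i
    rw [mem_filter, mem_range, mem_range]
    omega
  rw [this, card_range]

/-- the sum over the thresholds in `[p, h]` -/
theorem sum_thr_high (a : D → ℕ) {p h : ℕ} (hph : p ≤ h + 1) (ha : ∀ q, a q ≤ h) :
    ∑ i ∈ range (h + 1 - p), #(thr a (p + i)) + ∑ q, min (a q) (p - 1) = ∑ q, a q + 0 ∨ p = 0 := by
  rcases Nat.eq_zero_or_pos p with hp | hp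
  · exact Or.inr hp
  left
  simp_rw [thr, card_filter]
  rw [sum_comm, ← sum_add_distrib, add_zero]
  refine sum_congr rfl fun q _ => ?_
  rw [← card_filter]
  have hq := ha q
  have : (range (h + 1 - p)).filter (fun i => p + i ≤ a q) = range (a q + 1 - p) := by
    ext i
    rw [mem_filter, mem_range, mem_range]
    omega
  rw [this, card_range]
  omega

/-- a good pair of thresholds -/
theorem exists_thr (a : D → ℕ) {p h : ℕ} (hp : 0 < p) (hph : p ≤ h) (ha : ∀ q, a q ≤ h) :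
    ∃ t t', p ≤ t ∧ t ≤ h ∧ p ≤ t' ∧ t' ≤ h ∧ t + t' = h + p ∧
      2 * ∑ q, a q ≤ (h + 1 - p) * (#(thr a t) + #(thr a t')) + 2 * ∑ q, min (a q) (p - 1) := by
  have h1 := (sum_thr_high a (p := p) (h := h) (by omega) ha).resolve_right (by omega)
  rw [add_zero] at h1
  have h2 : ∑ i ∈ range (h + 1 - p), #(thr a (p + (h + 1 - p - 1 - i))) =
      ∑ i ∈ range (h + 1 - p), #(thr a (p + i)) :=
    sum_range_reflect (fun i => #(thr a (p + i))) (h + 1 - p)
  by_contra hcon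
  push Not at hcon
  have h3 : ∀ i ∈ range (h + 1 - p), (h + 1 - p) * (#(thr a (p + i)) +
      #(thr a (p + (h + 1 - p - 1 - i)))) + 2 * ∑ q, min (a q) (p - 1) < 2 * ∑ q, a q := by
    intro i hi
    rw [mem_range] at hi
    exact hcon (p + i) (p + (h + 1 - p - 1 - i)) (by omega) (by omega) (by omega) (by omega)
      (by omega)
  have h4 : ∑ i ∈ range (h + 1 - p), ((h + 1 - p) * (#(thr a (p + i)) +
      #(thr a (p + (h + 1 - p - 1 - i)))) + 2 * ∑ q, min (a q) (p - 1)) <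
      ∑ _i ∈ range (h + 1 - p), 2 * ∑ q, a q :=
    sum_lt_sum_of_nonempty ⟨0, mem_range.2 (by omega)⟩ h3
  rw [sum_add_distrib, ← mul_sum, sum_add_distrib, h2, sum_const, sum_const, card_range,
    smul_eq_mul, smul_eq_mul, ← mul_add] at h4
  have h5 := lt_of_mul_lt_mul_left h4 (Nat.zero_le _)
  omega

end thresholds

end Pool.Agent.Lib.MPa7239a.TP
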