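import Pool.Agent.Lib.MP_a7239a_co.TP.IndexP
import Pool.Agent.Lib.MP_a7239a_co.Q3.CI

/-!
# Tight subgroups of order at least `p²` in a `p`-group

`G` is an abelian `p`-group, `|A| = |G| / p + p`, and `A` meets at most `κ / |K| + p - 2` cosets of a
subgroup `K` with `p² ≤ |K| ≤ κ / p`, `κ = |G| / p`. Then every element of `G` is a sum of `p`
distinct elements of `A`. The proof: for `t + t' = |K| + p` Kneser's theorem is applied to the sets of
cosets which contain at least `t`, `t'`, `1`, `2`, …, `p - 2` elements of `A`, for the best `t`.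
-/

open scoped Pointwise
open Finset

set_option linter.unusedSectionVars false

namespace Pool.Agent.Lib.MPa7239a.TP

open Pool.Agent.Lib.MPa7239a.Q3

universe u v

section arith

theorem arith_low {N h p w s₁ s₂ m₁ : ℕ} (hp : 5 ≤ p) (hh : p * p ≤ h) (hw : w + 2 ≤ N + p)
    (hs₂ : s₂ ≤ w) (hm : m₁ ≤ (p - 1) * w)
    (hk : 2 * (N * h + p) ≤ (h + 1 - p) * (s₁ + s₂) + 2 * m₁) : N + 1 ≤ s₁ + p := by
  by_contra hcon
  push Not at hcon
  obtain ⟨r, rfl⟩ : ∃ r, p = r + 1 := ⟨p - 1, by omega⟩
  have hrr : r ≤ (r + 1) * (r + 1) := by nlinarith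
  obtain ⟨H, hH⟩ : ∃ H, h = H + r := ⟨h - r, by omega⟩
  subst hH
  rw [show H + r + 1 - (r + 1) = H by omega] at hk
  rw [show r + 1 - 1 = r by omega] at hm
  have h1 : s₁ + s₂ + 2 ≤ 2 * N := by omega
  have h2 : H * (s₁ + s₂ + 2) ≤ H * (2 * N) := Nat.mul_le_mul_left _ h1
  have h3 : r * (w + 1) ≤ r * (N + r) := Nat.mul_le_mul_left _ (by omega)
  nlinarith

theorem arith_trivial {N h p n μ s : ℕ} (hp : 5 ≤ p) (hh : p * p ≤ h)
    (h1 : 2 * (N * h + p) ≤ (h + 1 - p) * s + 2 * ((p - 1) * n + μ))
    (h2 : s + ((p - 2) * n + μ) + 2 ≤ p * N + p) (h3 : N * h + p ≤ n * h + μ) : False := by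
  obtain ⟨r, rfl⟩ : ∃ r, p = r + 2 := ⟨p - 2, by omega⟩
  have hrr : r + 1 ≤ (r + 2) * (r + 2) := by nlinarith
  obtain ⟨H, hH⟩ : ∃ H, h = H + (r + 1) := ⟨h - (r + 1), by omega⟩
  subst hH
  rw [show H + (r + 1) + 1 - (r + 2) = H by omega, show r + 2 - 1 = r + 1 by omega] at h1
  rw [show r + 2 - 2 = r by omega] at h2
  have hH2 : 2 ≤ H := by nlinarith
  have h4 : H * (s + (r * n + μ) + 2) ≤ H * ((r + 2) * N + (r + 2)) := Nat.mul_le_mul_left _ h2
  zify at h1 h3 h4 hH2 hp hh ⊢
  rcases Nat.lt_or_ge N n with hn | hn
  · have hn' : (N : ℤ) + 1 ≤ n := by exact_mod_cast hn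
    have hc : (0 : ℤ) ≤ H * r - 2 * (r + 1) := by nlinarith
    have h5 : (H * r - 2 * (r + 1) : ℤ) * (N + 1) ≤ (H * r - 2 * (r + 1)) * n :=
      mul_le_mul_of_nonneg_left hn' hc
    have h6 : (0 : ℤ) ≤ (H - 2) * μ := mul_nonneg (by omega) (by positivity)
    nlinarith
  · have hn' : (n : ℤ) ≤ N := by exact_mod_cast hn
    have h5 : ((H : ℤ) - 2) * ((N - n) * (H + (r + 1)) + (r + 2)) ≤ (H - 2) * μ :=
      mul_le_mul_of_nonneg_left (by linarith) (by omega)
    have h6 : (0 : ℤ) ≤ (N - n) * (H * (H - 1)) := by
      apply mul_nonneg (by linarith)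
      apply mul_nonneg <;> omega
    nlinarith

end arith

section main

variable {G : Type u} [AddCommGroup G] [Fintype G] [DecidableEq G]
variable {D : Type v} [AddCommGroup D] [Fintype D] [DecidableEq D]
variable {p : ℕ}

/-- representations with two rich classes lift -/
theorem lift_thr (hpp : p.Prime) (hp : 5 ≤ p) {π : G →+ D} {h : ℕ} (hh : ∀ d, #(fib π d) = h)
    (hH : ∀ q, q.Prime → q ∣ h → p ≤ q) (hn : h ≠ p) (hn2 : h ≠ p + 2) {A : Finset G} {x : G}
    {t t' : ℕ} (ht : p ≤ t) (ht' : p ≤ t') (htt : t + t' = h + p)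
    (hx : π x ∈ thr (fun q => #(part π A q)) t + (thr (fun q => #(part π A q)) t' +
      (thrs (fun q => #(part π A q)) (p - 2)).sum)) : DS A p x := by
  classical
  have hodd : p % 2 = 1 := hpp.eq_two_or_odd.resolve_left (by omega)
  set a : D → ℕ := fun q => #(part π A q) with ha
  rw [Finset.mem_add] at hx
  obtain ⟨q₁, hq₁, r, hr, hxr⟩ := hx
  rw [Finset.mem_add] at hr
  obtain ⟨q₂, hq₂, y, hy, hyr⟩ := hr
  rw [mem_thr] at hq₁ hq₂
  obtain ⟨c, hc1, hc2, hc3⟩ := cap_list _ _ hy
  rw [length_thrs] at hc1
  have hc3' : ∀ q, c q ≤ min (a q) (p - 2) := fun q => by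
    have := hc3 q
    rwa [sum_cap] at this
  set d : D → ℕ := fun q => c q + ((if q = q₁ then 1 else 0) + (if q = q₂ then 1 else 0)) with hd
  have hdsum : ∑ q, d q = p := by
    rw [hd]
    simp only [sum_add_distrib, sum_ite_eq' univ, mem_univ, if_true]
    omega
  have hds : ∑ q, d q • q = π x := by
    rw [← hxr, ← hyr, ← hc2, hd]
    simp only [add_nsmul, sum_add_distrib, ite_smul, one_smul, zero_smul, sum_ite_eq' univ,
      mem_univ, if_true]
    abel
  rw [← hdsum]
  by_cases hqq : q₁ = q₂
  · subst hqq
    apply lift {q₁}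
    · intro q hq
      rw [mem_singleton] at hq
      show c q + ((if q = q₁ then 1 else 0) + (if q = q₁ then 1 else 0)) ≤ a q
      rw [if_neg hq]
      have := hc3' q
      omega
    · exact hds
    · intro z hz
      rw [sum_singleton] at hz ⊢
      have h1 : A.filter (fun g => π g ∈ ({q₁} : Finset D)) = part π A q₁ := by
        ext g
        rw [mem_filter, mem_singleton, mem_part]
      rw [h1]
      have h2 : d q₁ = c q₁ + 2 := by
        show c q₁ + ((if q₁ = q₁ then 1 else 0) + (if q₁ = q₁ then 1 else 0)) = c q₁ + 2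
        rw [if_pos rfl]
      have h3 := hc3' q₁
      have h4 : h + p ≤ 2 * #(part π A q₁) := by
        have h5 : t ≤ #(part π A q₁) := hq₁
        have h6 : t' ≤ #(part π A q₁) := hq₂
        omega
      rcases Nat.lt_or_ge (d q₁) p with h5 | h5
      · exact fibre_mid hp hodd (part_subset q₁) (hh q₁) hH h4 (by omega) h5 hz.symm
      · have h6 : d q₁ = p := by omega
        rw [h6]
        exact fibre_top hpp hp (part_subset q₁) (hh q₁) hH h4 hn hn2 (by rw [hz, h6])
  · apply lift {q₁, q₂}
    · intro q hq
      rw [mem_insert, mem_singleton, not_or] at hq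
      show c q + ((if q = q₁ then 1 else 0) + (if q = q₂ then 1 else 0)) ≤ a q
      rw [if_neg hq.1, if_neg hq.2]
      have := hc3' q
      omega
    · exact hds
    · intro z hz
      rw [sum_pair hqq] at hz ⊢
      have h1 : A.filter (fun g => π g ∈ ({q₁, q₂} : Finset D)) = part π A q₁ ∪ part π A q₂ := by
        ext g
        rw [mem_filter, mem_insert, mem_singleton, mem_union, mem_part, mem_part]
        tauto
      rw [h1]
      have h2 : d q₁ = c q₁ + 1 := by
        show c q₁ + ((if q₁ = q₁ then 1 else 0) + (if q₁ = q₂ then 1 else 0)) = c q₁ + 1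
        rw [if_pos rfl, if_neg hqq]
      have h3 : d q₂ = c q₂ + 1 := by
        show c q₂ + ((if q₂ = q₁ then 1 else 0) + (if q₂ = q₂ then 1 else 0)) = c q₂ + 1
        rw [if_pos rfl, if_neg (Ne.symm hqq)]
      have h4 : d q₁ + d q₂ ≤ p := by
        rw [← hdsum, ← sum_pair hqq]
        exact sum_le_sum_of_subset (subset_univ _)
      have h5 : t ≤ #(part π A q₁) := hq₁
      have h6 : t' ≤ #(part π A q₂) := hq₂
      exact pair_DS hqq (part_subset q₁) (part_subset q₂) (hh q₂) (by omega) (by omega) (by omega)
        (by omega) (by omega) hz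

/-- sums of the weights: the classes with at least `p - 1` elements and the others -/
theorem sum_min_split (a : D → ℕ) {m k : ℕ} (hk : k ≤ m + 1) (hmk : m ≤ k) :
    ∑ q, min (a q) m = m * #(thr a k) + ∑ q ∈ univ.filter (fun q => ¬ k ≤ a q), a q := by
  rw [← sum_filter_add_sum_filter_not univ (fun q => k ≤ a q)]
  congr 1
  · rw [thr, mul_comm, ← smul_eq_mul, ← sum_const]
    refine sum_congr rfl fun q hq => ?_
    have := (mem_filter.1 hq).2
    omega
  · refine sum_congr rfl fun q hq => ?_
    have := (mem_filter.1 hq).2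
    omega

theorem card_hs_dvd (K : AddSubgroup D) : #(hs K) ∣ Fintype.card D := by
  have h5 : #(hs K) ∣ #(univ : Finset D) := dvd_card_of_per (fun a _ g _ => mem_univ _)
  rwa [card_univ] at h5

theorem card_add_hs_le {S : Finset D} {y : D} (hy : y ∉ S) :
    #S + #(hs (st S)) ≤ Fintype.card D := by
  have h2 : Disjoint S (cs (st S) y) := by
    rw [Finset.disjoint_left]
    intro g hg hg'
    rw [mem_cs] at hg'
    apply hy
    have h5 := per_st S g hg (-(g - y)) ((st S).neg_mem hg')
    have : g + -(g - y) = y := by abel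
    rwa [this] at h5
  rw [← card_cs (st S) y, ← card_union_of_disjoint h2]
  exact card_le_univ _

/-- **tight subgroups are impossible** -/
theorem tight_false (hpp : p.Prime) (hp : 5 ≤ p) {A : Finset G} {x : G} (hno : ¬ DS A p x) :
    ∀ (e : ℕ) (D : Type v) [AddCommGroup D] [Fintype D] [DecidableEq D] (π : G →+ D) (i : ℕ),
      Function.Surjective π → 2 ≤ i → (∀ d, #(fib π d) = p ^ i) → Fintype.card D = p ^ (e + 2) →
      #A = p ^ (e + 1) * p ^ i + p → #(A.image π) + 2 ≤ p ^ (e + 1) + p → False := by
  classical
  intro e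
  induction e using Nat.strong_induction_on with
  | _ e ih =>
  intro D _ _ _ π i hπ hi hfib hD hA hw
  have hprime : ∀ k : ℕ, ∀ q, q.Prime → q ∣ p ^ k → p ≤ q := by
    intro k q hq hqd
    rw [(Nat.prime_dvd_prime_iff_eq hq hpp).1 (hq.dvd_of_dvd_pow hqd)]
  set h := p ^ i with hh
  set N := p ^ (e + 1) with hN
  have hDN : Fintype.card D = p * N := by
    rw [hD, hN]
    ring
  have hhpp : p * p ≤ h := by
    rw [hh, ← pow_two]
    exact Nat.pow_le_pow_right (by omega) hi
  have hpN : p ≤ N := by
    rw [hN]
    exact Nat.le_self_pow (Nat.succ_ne_zero e) p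
  have hpp5 : 5 * p ≤ p * p := Nat.mul_le_mul_right _ hp
  set a : D → ℕ := fun q => #(part π A q) with ha
  have hah : ∀ q, a q ≤ h := fun q => by
    rw [← hfib q]
    exact card_le_card (part_subset q)
  have hsum : ∑ q, a q = N * h + p := by
    rw [← hA]
    symm
    exact card_eq_sum_card_fiberwise (fun g _ => mem_coe.2 (mem_univ _))
  have hthr1 : thr a 1 = A.image π := by
    ext q
    rw [mem_thr, mem_image]
    constructor
    · intro hq
      obtain ⟨g, hg⟩ := card_pos.1 (show 0 < #(part π A q) from hq)
      rw [mem_part] at hg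
      exact ⟨g, hg⟩
    · rintro ⟨g, hg, hgq⟩
      exact card_pos.2 ⟨g, mem_part.2 ⟨hg, hgq⟩⟩
  obtain ⟨t, t', ht, hth, ht', hth', htt, hkey⟩ := exists_thr a (p := p) (h := h) (by omega)
    (by omega) hah
  have hlow : ∀ s, 1 ≤ s → #(thr a s) ≤ #(A.image π) := by
    intro s hs
    rw [← hthr1]
    exact card_le_card (thr_anti a hs)
  have hm1 : ∑ q, min (a q) (p - 1) ≤ (p - 1) * #(A.image π) := by
    rw [← sum_thr_low]
    refine le_trans (sum_le_card_nsmul _ _ _ (fun i _ => hlow (i + 1) (by omega))) ?_
    rw [card_range, smul_eq_mul]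
  rw [hsum] at hkey
  have hs1 : N + 1 ≤ #(thr a t) + p :=
    arith_low hp hhpp hw (hlow t' (by omega)) hm1 hkey
  have hs2 : N + 1 ≤ #(thr a t') + p :=
    arith_low hp hhpp hw (hlow t (by omega)) hm1 (by rw [add_comm #(thr a t')]; exact hkey)
  have hs3 : ∀ i < p - 2, N + 1 ≤ #(thr a (i + 1)) + p := by
    intro i hi
    have := card_le_card (thr_anti a (show i + 1 ≤ t by omega))
    omega
  -- Kneser's theorem
  set S := thr a t + (thr a t' :: thrs a (p - 2)).sum with hS
  have hyS : π x ∉ S := by
    intro hy
    rw [hS, List.sum_cons] at hy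
    exact hno (lift_thr hpp hp hfib (hprime i) (by omega) (by omega) ht ht' htt hy)
  have hKn := kneser_list (thr a t' :: thrs a (p - 2)) (thr a t)
    (card_pos.1 (by omega)) (by
      intro Y hY
      rw [List.mem_cons] at hY
      rcases hY with rfl | hY
      · exact card_pos.1 (by omega)
      · obtain ⟨i, hi, rfl⟩ := mem_thrs hY
        have := hs3 i hi
        exact card_pos.1 (by omega))
  rw [← hS, List.map_cons, List.sum_cons, List.length_cons, length_thrs, sum_thrs,
    show p - 2 + 1 = p - 1 by omega] at hKn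
  have hSK := card_add_hs_le hyS
  set K := st S with hK
  have hKd := card_hs_dvd K
  rw [hD] at hKd
  obtain ⟨j, hj, hf⟩ := (Nat.dvd_prime_pow hpp).1 hKd
  set f := #(hs K) with hfdef
  rcases Nat.eq_zero_or_pos j with hj0 | hj0
  · -- trivial stabilizer
    rw [hj0, pow_zero] at hf
    have h1 : ∑ i ∈ range (p - 2), #(thr a (i + 1)) ≤
        ∑ i ∈ range (p - 2), #(cl K (thr a (i + 1))) :=
      sum_le_sum fun i _ => card_le_card (subset_cl K _)
    rw [sum_thr_low] at h1
    have h2 := card_le_card (subset_cl K (thr a t))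
    have h3 := card_le_card (subset_cl K (thr a t'))
    have h4 := sum_min_split a (m := p - 1) (k := p - 1) (by omega) (by omega)
    have h5 := sum_min_split a (m := p - 2) (k := p - 1) (by omega) (by omega)
    set n := #(thr a (p - 1)) with hn
    set μ := ∑ q ∈ univ.filter (fun q => ¬ p - 1 ≤ a q), a q with hμ
    have h6 : N * h + p ≤ n * h + μ := by
      rw [← hsum, ← sum_filter_add_sum_filter_not univ (fun q => p - 1 ≤ a q), ← hμ]
      have : ∑ q ∈ univ.filter (fun q => p - 1 ≤ a q), a q ≤ n * h := by
        rw [hn, thr, ← smul_eq_mul]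
        exact sum_le_card_nsmul _ _ _ (fun q _ => hah q)
      omega
    rw [h4] at hkey
    rw [h5] at h1
    apply arith_trivial hp hhpp hkey ?_ h6
    rw [hf, hDN] at hSK
    rw [hf] at hKn
    omega
  · -- nontrivial stabilizer
    have hje : j ≤ e + 1 := by
      by_contra hcon
      have h1 : j = e + 2 := by omega
      rw [h1, ← hD] at hf
      have h2 : 0 < #S := by
        apply card_pos.2
        rw [hS]
        refine (card_pos.1 (show 0 < #(thr a t) by omega)).add ?_
        have h3 : ∀ L : List (Finset D), (∀ X ∈ L, X.Nonempty) → L.sum.Nonempty := by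
          intro L
          induction L with
          | nil => intro _; exact ⟨0, by rw [List.sum_nil]; exact Finset.mem_zero.2 rfl⟩
          | cons X L ihL =>
            intro hL
            rw [List.sum_cons]
            exact (hL X List.mem_cons_self).add
              (ihL fun Y hY => hL Y (List.mem_cons_of_mem _ hY))
        apply h3
        intro Y hY
        rw [List.mem_cons] at hY
        rcases hY with rfl | hY
        · exact card_pos.1 (by omega)
        · obtain ⟨i, hi, rfl⟩ := mem_thrs hY
          have := hs3 i hi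
          exact card_pos.1 (by omega)
      omega
    have hpf : p ≤ f := by
      rw [hf]
      exact Nat.le_self_pow (by omega) p
    have hNf : N = p ^ (e + 1 - j) * f := by
      rw [hf, hN, ← pow_add]
      congr 1
      omega
    have hcl : ∀ X : Finset D, N + 1 ≤ #X + p → N ≤ #(cl K X) := by
      intro X hX
      by_contra hcon
      push Not at hcon
      have h1 := add_le_of_dvd (h := f) (dvd_card_of_per (per_cl K X))
        (⟨p ^ (e + 1 - j), by rw [hNf]; ring⟩) hcon
      have h2 := card_le_card (subset_cl K X)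
      omega
    have hc1 := hcl _ hs1
    have hc2 := hcl _ hs2
    have hc3 : ∀ i ∈ range (p - 2), N ≤ #(cl K (thr a (i + 1))) := fun i hi =>
      hcl _ (hs3 i (mem_range.1 hi))
    have hKn2 : ∑ i ∈ range (p - 2), #(cl K (thr a (i + 1))) + 2 * N + f ≤ p * N + (p - 1) * f := by
      rw [hDN] at hSK
      omega
    have hpf2 : (p - 1) * f = (p - 2) * f + f := by
      obtain ⟨r, rfl⟩ : ∃ r, p = r + 2 := ⟨p - 2, by omega⟩
      rw [show r + 2 - 1 = r + 1 by omega, show r + 2 - 2 = r by omega]
      ring
    -- the quotient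
    obtain ⟨D', _, _, _, ρ, hρs, hρk, hρf, hρi⟩ := exists_quot K
    have hD' : Fintype.card D' = p ^ (e + 2 - j) := by
      have h1 := card_fib hρs (0 : D')
      rw [hρf, ← hfdef, hf, hD] at h1
      have h2 : p ^ (e + 2) = p ^ j * p ^ (e + 2 - j) := by
        rw [← pow_add]
        congr 1
        omega
      rw [h2] at h1
      exact Nat.eq_of_mul_eq_mul_left (pow_pos (by omega) j) h1
    have hfib' : ∀ v, #(fib (ρ.comp π) v) = p ^ (i + j) := by
      intro v
      have h1 := card_fib (π := ρ.comp π) (hρs.comp hπ) v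
      have h2 := card_fib hπ (0 : D)
      rw [← h2, hfib, hD, hD', hh] at h1
      have h3 : p ^ i * p ^ (e + 2) = p ^ (i + j) * p ^ (e + 2 - j) := by
        rw [← pow_add, ← pow_add]
        congr 1
        omega
      rw [h3] at h1
      exact Nat.eq_of_mul_eq_mul_right (pow_pos (by omega) _) h1
    have himg : A.image (ρ.comp π) = (thr a 1).image ρ := by
      rw [hthr1, image_image]
      rfl
    have hcl1 : #(cl K (thr a 1)) ≤ N + (p - 2) * f := by
      have h1 : #(cl K (thr a 1)) + (p - 3) * N ≤
          ∑ i ∈ range (p - 2), #(cl K (thr a (i + 1))) := by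
        rw [show p - 2 = (p - 3) + 1 by omega, sum_range_succ', show thr a (0 + 1) = thr a 1 from rfl]
        have h2 : (p - 3) * N ≤ ∑ i ∈ range (p - 3), #(cl K (thr a (i + 1 + 1))) := by
          have h3 := card_nsmul_le_sum (range (p - 3)) (fun i => #(cl K (thr a (i + 1 + 1)))) N
            (fun i hi => hc3 (i + 1) (by
              rw [mem_range] at hi ⊢
              omega))
          rwa [card_range, smul_eq_mul] at h3
        omega
      have h2 : p * N = (p - 3) * N + 3 * N := by
        obtain ⟨r, rfl⟩ : ∃ r, p = r + 3 := ⟨p - 3, by omega⟩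
        rw [show r + 3 - 3 = r by omega]
        ring
      omega
    rcases Nat.lt_or_ge j (e + 1) with hje' | hje'
    · -- induction
      apply ih (e - j) (by omega) D' (ρ.comp π) (i + j) (hρs.comp hπ) (by omega) hfib'
      · rw [hD']
        congr 1
        omega
      · rw [hA, hN, hh, ← pow_add, ← pow_add]
        congr 2
        omega
      · rw [himg]
        have h1 := hρi (thr a 1)
        have h2 : #((thr a 1).image ρ) * f ≤ (p ^ (e + 1 - j) + (p - 2)) * f := by
          rw [h1, Nat.add_mul, ← hNf]
          exact hcl1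
        have h3 := Nat.le_of_mul_le_mul_right h2 (by omega)
        rw [show e - j + 1 = e + 1 - j by omega]
        omega
    · -- index `p`
      have hj1 : j = e + 1 := by omega
      have hfN : f = N := by rw [hf, hj1]
      have hD'p : Fintype.card D' = p := by
        rw [hD', hj1, show e + 2 - (e + 1) = 1 by omega, pow_one]
      set κ := N * h with hκ
      have hfibκ : ∀ v, #(fib (ρ.comp π) v) = κ := by
        intro v
        rw [hfib', hκ, hN, hh, hj1, ← pow_add]
        congr 1
        omega
      have hκb : p * (p * p) ≤ κ := Nat.mul_le_mul hpN hhpp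
      have hκ5 : 5 * (p * p) ≤ p * (p * p) := Nat.mul_le_mul_right _ hp
      suffices hex : ∃ u, κ + p ≤ 2 * #(part (ρ.comp π) A u) by
        obtain ⟨u, hu⟩ := hex
        apply hno
        apply index_p hpp hp hD'p hfibκ ?_ (by omega) (by omega) (by omega) hA hu
        intro q hq hqd
        apply hprime (i + j) q hq
        rwa [← hfib' 0, hfibκ]
      rw [hfN] at hKn2 hpf2
      set X := thr a (p - 2) with hX
      have hXsub : ∀ i ∈ range (p - 2), X ⊆ thr a (i + 1) := by
        intro i hi
        rw [mem_range] at hi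
        exact thr_anti a (by omega)
      have hXi : ∀ i ∈ range (p - 2), #(X.image ρ) * N ≤ #(cl K (thr a (i + 1))) := by
        intro i hi
        rw [← hρi, ← hfdef, hfN]
        exact Nat.mul_le_mul_right _ (card_le_card (image_subset_image (hXsub i hi)))
      have hXsum : (p - 2) * (#(X.image ρ) * N) ≤ ∑ i ∈ range (p - 2), #(cl K (thr a (i + 1))) := by
        have := card_nsmul_le_sum (range (p - 2)) _ _ hXi
        rwa [card_range, smul_eq_mul] at this
      have hNpos : 0 < N := by omega
      have hX2 : #(X.image ρ) ≤ 2 := by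
        by_contra hcon
        push Not at hcon
        have h1 : 3 * N ≤ #(X.image ρ) * N := Nat.mul_le_mul_right _ hcon
        have h2 : (p - 2) * (3 * N) ≤ (p - 2) * (#(X.image ρ) * N) := Nat.mul_le_mul_left _ h1
        have h3 : p * N = (p - 2) * N + 2 * N := by
          obtain ⟨r, rfl⟩ : ∃ r, p = r + 2 := ⟨p - 2, by omega⟩
          rw [show r + 2 - 2 = r by omega]
          ring
        have h4 : (p - 2) * (3 * N) = (p - 2) * N + ((p - 2) * N + (p - 2) * N) := by ring
        have h5 : 1 * N ≤ (p - 2) * N := Nat.mul_le_mul_right _ (by omega)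
        omega
      have hXne : X.Nonempty := by
        have : #(thr a t) ≤ #X := card_le_card (thr_anti a (show p - 2 ≤ t by omega))
        exact card_pos.1 (by omega)
      have hw1 : #(A.image (ρ.comp π)) * N = #(cl K (thr a 1)) := by
        rw [himg, ← hρi, ← hfdef, hfN]
      rcases Nat.lt_or_ge (#(X.image ρ)) 2 with hX1 | hX1
      · -- one rich class
        have hX1' : #(X.image ρ) = 1 := by
          have := (hXne.image ρ).card_pos
          omega
        obtain ⟨u, hu⟩ := card_eq_one.1 hX1'
        refine ⟨u, ?_⟩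
        -- elements outside
        have hXc : N + 1 ≤ #X + p := by
          have : #(thr a t) ≤ #X := card_le_card (thr_anti a (show p - 2 ≤ t by omega))
          omega
        have h1 : A ⊆ part (ρ.comp π) A u ∪ A.filter (fun g => π g ∉ X) := by
          intro g hg
          rw [mem_union, mem_part, mem_filter]
          by_cases hgX : π g ∈ X
          · left
            refine ⟨hg, ?_⟩
            have : ρ (π g) ∈ X.image ρ := mem_image_of_mem _ hgX
            rw [hu, mem_singleton] at this
            exact this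
          · exact Or.inr ⟨hg, hgX⟩
        have h2 : #(A.filter (fun g => π g ∉ X)) ≤ (p - 3) * (2 * p - 3) := by
          have h3 : #(A.filter (fun g => π g ∉ X)) = ∑ q ∈ A.image π \ X, a q := by
            rw [card_eq_sum_card_fiberwise (f := π) (t := A.image π \ X)]
            · refine sum_congr rfl fun q hq => ?_
              show _ = #(part π A q)
              congr 1
              ext g
              rw [mem_filter, mem_filter, mem_part]
              constructor
              · rintro ⟨⟨h4, h5⟩, h6⟩
                exact ⟨h4, h6⟩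
              · rintro ⟨h4, h5⟩
                refine ⟨⟨h4, ?_⟩, h5⟩
                rw [h5]
                exact (mem_sdiff.1 hq).2
            · intro g hg
              rw [mem_coe, mem_filter] at hg
              rw [mem_coe, mem_sdiff]
              exact ⟨mem_image_of_mem _ hg.1, hg.2⟩
          rw [h3]
          have h4 : ∀ q ∈ A.image π \ X, a q ≤ p - 3 := by
            intro q hq
            have h5 := (mem_sdiff.1 hq).2
            rw [hX, mem_thr] at h5
            omega
          refine le_trans (sum_le_card_nsmul _ _ _ h4) ?_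
          rw [smul_eq_mul, mul_comm]
          apply Nat.mul_le_mul_left
          have h5 : X ⊆ A.image π := by
            rw [← hthr1]
            exact thr_anti a (by omega)
          rw [card_sdiff_of_subset h5]
          omega
        have h3 := card_le_card h1
        have h4 := card_union_le (part (ρ.comp π) A u) (A.filter (fun g => π g ∉ X))
        have h5 : (p - 3) * (2 * p - 3) * 2 ≤ 4 * (p * p) := by
          have h6 : (p - 3) * (2 * p - 3) ≤ p * (2 * p) := Nat.mul_le_mul (by omega) (by omega)
          have h7 : p * (2 * p) = 2 * (p * p) := by ring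
          omega
        omega
      · -- two rich classes
        have hX2' : #(X.image ρ) = 2 := by omega
        rw [hX2'] at hXi
        have h1 : #(cl K (thr a 1)) + (p - 3) * (2 * N) ≤
            ∑ i ∈ range (p - 2), #(cl K (thr a (i + 1))) := by
          rw [show p - 2 = (p - 3) + 1 by omega, sum_range_succ',
            show thr a (0 + 1) = thr a 1 from rfl]
          have h2 : (p - 3) * (2 * N) ≤ ∑ i ∈ range (p - 3), #(cl K (thr a (i + 1 + 1))) := by
            have h3 := card_nsmul_le_sum (range (p - 3)) (fun i => #(cl K (thr a (i + 1 + 1))))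
              (2 * N) (fun i hi => hXi (i + 1) (by
                rw [mem_range] at hi ⊢
                omega))
            rwa [card_range, smul_eq_mul] at h3
          omega
        have h2 : #(A.image (ρ.comp π)) * N ≤ 2 * N := by
          rw [hw1]
          have h3 : p * N = (p - 3) * N + 3 * N := by
            obtain ⟨r, rfl⟩ : ∃ r, p = r + 3 := ⟨p - 3, by omega⟩
            rw [show r + 3 - 3 = r by omega]
            ring
          have h4 : (p - 3) * (2 * N) = (p - 3) * N + (p - 3) * N := by ring
          have h5 : (p - 2) * N = (p - 3) * N + N := by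
            obtain ⟨r, rfl⟩ : ∃ r, p = r + 3 := ⟨p - 3, by omega⟩
            rw [show r + 3 - 3 = r by omega, show r + 3 - 2 = r + 1 by omega]
            ring
          omega
        have h3 := Nat.le_of_mul_le_mul_right h2 hNpos
        by_contra hcon
        push Not at hcon
        have h4 := sum_card_part (π := ρ.comp π) (A := A)
        rw [hA] at h4
        have h5 : (A.image (ρ.comp π)).Nonempty := by
          apply Nonempty.image
          rw [← card_pos]
          omega
        have h6 : ∑ v ∈ A.image (ρ.comp π), 2 * #(part (ρ.comp π) A v) <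
            ∑ _v ∈ A.image (ρ.comp π), (κ + p) := sum_lt_sum_of_nonempty h5 fun v _ => hcon v
        rw [← mul_sum, h4, sum_const, smul_eq_mul] at h6
        have h7 := lt_of_mul_lt_mul_right h6 (Nat.zero_le _)
        omega

end main

end Pool.Agent.Lib.MPa7239a.TP
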